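import Pool.Agent.U436.CW.Thm

/-!
# The Tate conjecture for the powers: short form
-/

set_option autoImplicit false

namespace Pool.Agent.U436.CW

open Finset Pool.Agent.U436.AS Pool.Agent.U436.CT Pool.Agent.U436.CS

variable {k K : Type} [Field k] [Field K] {d : ℕ} {Λ τ Ψ : Type}

/-- `x` is zero or an eigenvector of `F` with the eigenvalue `μ`. -/
def IsVec {V : Type} [AddCommGroup V] [Module K V] (F : V →ₗ[K] V) (μ : K) (x : V) : Prop := F x = μ • x

/-- `x` is killed by the product of the `F - α a`. -/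
def Kills {V Ω : Type} [AddCommGroup V] [Module K V] [Fintype Ω] (F : V →ₗ[K] V) (α : Ω → K) (x : V) : Prop :=
  Polynomial.aeval F (∏ a, (Polynomial.X - Polynomial.C (α a))) x = 0

/-- There are linear maps `a : G (Z) → G (Y)`, `b : T (Z) → T (Y)` compatible with `cl`, and the image of `b` contains
the classes with the property `p`. -/
def Carries (C : CycleMap k K) {ι κ : Type} (Z : Set (ι → k)) (Y : Set (κ → k)) (p : C.T.H Y → Prop) : Prop :=
  ∃ (a : C.G.H Z →ₗ[K] C.G.H Y) (b : C.T.H Z →ₗ[K] C.T.H Y), (∀ x, C.cyc Y (a x) = b (C.cyc Z x)) ∧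
    ∀ y, p y → ∃ x, b x = y

/-- Restriction to the open part `h ≠ 0`, surjective for `T`. -/
def Restricts (C : CycleMap k K) : Prop := ∀ {ι : Type} [Finite ι] (X : Set (ι → k)) (h : (ι → k) → k),
  IsZeroSet X → IsPol h → Carries C X (opn X h) fun _ => True

/-- The data of the curve `C : A (y) = f0 (x) + ∑ i, f i (1 / (x - P i))`. -/
structure Cov (k : Type) [Field k] where
  A : Polynomial k
  f0 : Polynomial k
  N : ℕ
  f : Fin N → Polynomial k
  P : Fin N → k

/-- `C ^ Λ × R`. -/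
def Cov.tm (X : Cov k) (Λ : Type) (R : Set (τ → k)) : Set (CI Λ X.N ⊕ τ → k) :=
  tms (cpow X.A X.f0 X.f X.P Λ) R

/-- `A` is additive, the poles are different and their orders are prime to the characteristic, the curve and its
automorphisms are defined over the field with `Q` elements, and `d` is the dimension of `H¹ (C')_ψ`. -/
structure Cov.IsGood (X : Cov k) (Q d : ℕ) : Prop where
  add : IsAdditive X.A
  ne : X.A ≠ 0
  inj : Function.Injective X.P
  m0 : (X.f0.natDegree : k) ≠ 0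
  m : ∀ i, ((X.f i).natDegree : k) ≠ 0
  dim : d + 1 = X.f0.natDegree + ∑ i, ((X.f i).natDegree + 1)
  isOver : IsOver Q X.A X.f0 X.f X.P

/-- The action of the Frobenius map of the factor `l` of `C ^ Λ × R`. -/
noncomputable def Cov.fr (X : Cov k) (T : Homology k K) (Q : ℕ) (R : Set (τ → k)) (l : Λ) :
    T.H (X.tm Λ R) →ₗ[K] T.H (X.tm Λ R) := T.push _ _ (ftm (frl Q l))

/-- The action of the translation `y l ↦ y l + ζ` of the factor `l` of `C ^ Λ × R`. -/
noncomputable def Cov.tr (X : Cov k) (T : Homology k K) (R : Set (τ → k)) (l : Λ) (ζ : k) :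
    T.H (X.tm Λ R) →ₗ[K] T.H (X.tm Λ R) := T.push _ _ (ftm (trl l ζ))

/-- The sum of the translations of the factor `l` kills `x`. -/
def Cov.New (X : Cov k) (T : Homology k K) (R : Set (τ → k)) (l : Λ) (x : T.H (X.tm Λ R)) : Prop :=
  ∑ ζ ∈ zer X.A, X.tr T R l ζ x = 0

/-- The Frobenius map of the factor `l` has the eigenvalue `μ` on `x`. -/
def Cov.Fr (X : Cov k) (T : Homology k K) (Q : ℕ) (R : Set (τ → k)) (l : Λ) (μ : K) (x : T.H (X.tm Λ R)) : Prop :=
  IsVec (X.fr T Q R l) μ x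

/-- The translations of the factor `l` act on `x` by the character `χ`. -/
def Cov.Tr (X : Cov k) (T : Homology k K) (R : Set (τ → k)) (l : Λ) (χ : k → K) (x : T.H (X.tm Λ R)) : Prop :=
  ∀ ζ ∈ zer X.A, IsVec (X.tr T R l ζ) (χ ζ) x

/-- The Frobenius map of `C` acts on the new part of the first homology with the different eigenvalues `α (ψ, i)`, and
the translations act on the eigenvectors by the characters `chr ψ`; expressed for one factor of the products. -/
structure Cov.HasEig (X : Cov k) (T : Homology k K) (Q : ℕ) [Fintype Ψ] (chr : Ψ → k → K)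
    (α : Ψ × Fin d → K) : Prop where
  inj : Function.Injective α
  chars : ∀ ψ, IsChr X.A (chr ψ)
  root : ∀ {Λ τ : Type} [Finite Λ] [Finite τ] (R : Set (τ → k)) (l : Λ) (x : T.H (X.tm Λ R)), IsZeroSet R →
    X.New T R l x → Kills (X.fr T Q R l) α x
  char : ∀ {Λ τ : Type} [Finite Λ] [Finite τ] (R : Set (τ → k)) (l : Λ) (x : T.H (X.tm Λ R)) (ψ : Ψ) (i : Fin d),
    IsZeroSet R → X.New T R l x → X.Fr T Q R l (α (ψ, i)) x → X.Tr T R l (chr ψ) x

/-- Tate classes: on a class `x ≠ 0` of `T` on `C ^ Λ × 𝔸 ^ n × S` which is an eigenvector of the Frobenius maps of the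
factors of `C ^ Λ`, a power of the Frobenius map has a power of `Q` as eigenvalue; `E` is the set of the
eigenvalues of `S`. -/
def Cov.IsTate (X : Cov k) (T : Homology k K) (Q : ℕ) (α : Ψ × Fin d → K) (S : Set (τ → k)) (E : Set K) : Prop :=
  ∀ {Λ : Type} [Fintype Λ] (n : ℕ) (a : Λ → Ψ × Fin d) (x : T.H (X.tm Λ (affS n S))), x ≠ 0 →
    (∀ l, X.Fr T Q (affS n S) l (α (a l)) x) →
      ∃ β ∈ E, ∃ m : ℕ, 0 < m ∧ ∃ e : ℤ, (β * ∏ l, α (a l)) ^ m = (Q : K) ^ e

/-- The class `y` is new at the factor `l`, with Frobenius eigenvalue `μ`. -/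
def Cov.Eig (X : Cov k) (T : Homology k K) (Q : ℕ) (R : Set (τ → k)) (l : Λ) (μ : K) (y : T.H (X.tm Λ R)) : Prop :=
  X.New T R l y ∧ X.Fr T Q R l μ y

/-- The product with a class on `C × C` (a combination of graphs of powers of the Frobenius map) gives all the classes
with dual eigenvalues at two factors. -/
def Cov.HasGraphs (X : Cov k) (C : CycleMap k K) (Q : ℕ) (α : Ψ × Fin d → K) (dual : Ψ × Fin d → Ψ × Fin d)
    (S : Set (τ → k)) : Prop :=
  ∀ {Λ : Type} [Finite Λ] (l l' : Λ) (n : ℕ) (a : Ψ × Fin d), l ≠ l' →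
    Carries C (X.tm {m // m ≠ l ∧ m ≠ l'} (affS (n + 1) S)) (X.tm Λ (affS n S)) fun y =>
      X.Eig C.T Q (affS n S) l (α a) y ∧ X.Eig C.T Q (affS n S) l' (α (dual a)) y

lemma Restricts.has {C : CycleMap k K} (h : Restricts C) : HasRestriction C := by
  intro ι _ X g hX hg
  obtain ⟨a, b, h1, h2⟩ := h X g hX hg
  exact ⟨a, b, fun y => h2 y trivial, h1⟩

theorem Cov.powers_iff [IsAlgClosed k] [CharZero K] [Fintype Ψ] [Nonempty Ψ] [Finite τ] {C : CycleMap k K}
    (hC : C.IsBorelMoore) (hres : Restricts C) {X : Cov k} {Q : ℕ} (hX : X.IsGood Q d) (he : Even d)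
    (hd0 : 0 < d) {chr : Ψ → k → K} {α : Ψ × Fin d → K} (hα : X.HasEig C.T Q chr α)
    {dual : Ψ × Fin d → Ψ × Fin d} (hdual : ∀ a, dual a ≠ a) {S : Set (τ → k)} (hS : IsZeroSet S) {E : Set K}
    (hE : X.IsTate C.T Q α S E) (hgen : OnlyObvious Q α dual E) (hgr : X.HasGraphs C Q α dual S) :
    (∀ (Λ : Type) [Finite Λ] (n : ℕ), Onto C (X.tm Λ (affS n S))) ↔ ∀ n, Onto C (affS n S) :=
  Pool.Agent.U436.CW.powers_iff hC hres.has hX.add hX.ne hX.inj hX.m0 hX.m hX.dim he hd0 hX.isOver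
    ⟨hα.inj, hα.chars, fun R l x hR h => hα.root R l x hR h, fun R l x ψ i hR h h' => hα.char R l x ψ i hR h h'⟩
    hdual hS (fun n a x hx h => hE n a x hx h) hgen
    (fun l l' n a h => by
      obtain ⟨δG, δT, h1, h2⟩ := hgr l l' n a h
      exact ⟨δG, δT, h1, fun y h3 h4 h5 h6 => h2 y ⟨⟨h3, h5⟩, ⟨h4, h6⟩⟩⟩)

end Pool.Agent.U436.CW
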