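import Pool.Agent.U436.CW.Pow

/-!
# The classes with the eigenvalues of a determinant
-/

set_option autoImplicit false

namespace Pool.Agent.U436.CW

open Finset Pool.Agent.U436 Pool.Agent.U436.AS Pool.Agent.U436.CS
open Pool.Agent.U436.CP (LL PI px py ps ppow prm prho prho_prho prho_one isAut_prho isZeroSet_ppow prho_mem isPolMap_prho)
open Pool.Agent.U436.CT (IsPolMap IsFiniteMap IsQuotient IsAut IsZeroSet pull zer mem_zer sum_shift)

variable {k K : Type} [Field k] [Field K] {N d : ℕ} {A f0 : Polynomial k} {f : Fin N → Polynomial k} {P : Fin N → k}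

/-- The power `C ^ d` as a product of powers of one curve. -/
abbrev pp (A f0 : Polynomial k) (f : Fin N → Polynomial k) (P : Fin N → k) (d : ℕ) :
    Set (PI (M := 1) (fun _ => d) (fun _ => N) → k) :=
  ppow (M := 1) (N := fun _ => N) A (fun _ => f0) (fun _ => f) (fun _ => P) fun _ => d

/-- The coordinates. -/
def cu : PI (M := 1) (fun _ => d) (fun _ => N) → CI (Fin d) N
  | Sum.inl (Sum.inl l) => Sum.inl (Sum.inl l.2)
  | Sum.inl (Sum.inr l) => Sum.inl (Sum.inr l.2)
  | Sum.inr p => Sum.inr (p.1.2, p.2)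

/-- The inverse. -/
def cv : CI (Fin d) N → PI (M := 1) (fun _ => d) (fun _ => N)
  | Sum.inl (Sum.inl l) => Sum.inl (Sum.inl ⟨0, l⟩)
  | Sum.inl (Sum.inr l) => Sum.inl (Sum.inr ⟨0, l⟩)
  | Sum.inr (l, i) => Sum.inr ⟨⟨0, l⟩, i⟩

lemma cv_cu (q : PI (M := 1) (fun _ => d) (fun _ => N)) : cv (cu q) = q := by
  rcases q with (⟨j, l⟩ | ⟨j, l⟩) | ⟨⟨j, l⟩, i⟩ <;> obtain rfl := Subsingleton.elim 0 j <;> rfl

lemma cu_cv (q : CI (Fin d) N) : cu (cv q) = q := by
  rcases q with (l | l) | ⟨l, i⟩ <;> rfl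

lemma cu_inv : IsInv (cpow A f0 f P (Fin d)) (pp A f0 f P d) (rx cu) (rx cv) where
  pol := isPolMap_rx _
  pol' := isPolMap_rx _
  mem := fun w hw l => hw l.2
  mem' := fun w hw l => hw ⟨0, l⟩
  left := fun w _ => by
    funext q
    show w (cu (cv q)) = w q
    rw [cu_cv]
  right := fun w _ => by
    funext q
    show w (cv (cu q)) = w q
    rw [cv_cu]

/-- The partial Frobenius map. -/
noncomputable def frq (Q : ℕ) (l : Fin d) :
    (PI (M := 1) (fun _ => d) (fun _ => N) → k) → PI (M := 1) (fun _ => d) (fun _ => N) → k :=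
  frp Q fun q => pos (cu q) = l

lemma cu_frl (Q : ℕ) (l : Fin d) (w : CI (Fin d) N → k) : rx cu (frl Q l w) = frq Q l (rx cu w) := rfl

lemma frq_mem {Q : ℕ} (hO : IsOver Q A f0 f P) (l : Fin d) {w : PI (M := 1) (fun _ => d) (fun _ => N) → k}
    (hw : w ∈ pp A f0 f P d) : frq Q l w ∈ pp A f0 f P d := by
  have h1 := cu_inv.mem _ (frl_mem hO l (cu_inv.mem' w hw))
  rw [cu_frl, cu_inv.right w hw] at h1
  exact h1

lemma fin_frq {Q : ℕ} (hO : IsOver Q A f0 f P) (l : Fin d) :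
    IsFiniteMap (pp A f0 f P d) (pp A f0 f P d) (frq Q l) :=
  fin_frp hO.ne _ fun _ hx => frq_mem hO l hx

/-- The permutation of the factors. -/
def prs (σ : Equiv.Perm (Fin d)) :
    (PI (M := 1) (fun _ => d) (fun _ => N) → k) → PI (M := 1) (fun _ => d) (fun _ => N) → k :=
  prho (M := 1) (N := fun _ => N) (d := fun _ => d) (fun _ => σ) fun _ => 0

lemma frq_prs (Q : ℕ) (σ : Equiv.Perm (Fin d)) (l : Fin d) (w : PI (M := 1) (fun _ => d) (fun _ => N) → k) :
    frq Q l (prs σ w) = prs σ (frq Q (σ l) w) := by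
  classical
  have h0 : (0 : k) ^ 1 = 0 := by simp
  funext q
  have hiff : ∀ m : Fin d, m = l ↔ σ m = σ l := fun m => σ.injective.eq_iff.symm
  rcases q with (⟨j, m⟩ | ⟨j, m⟩) | ⟨⟨j, m⟩, i⟩
  · by_cases h : m = l
    · subst h
      simp [frq, frp, prs, prho, prm, cu, pos]
    · simp [frq, frp, prs, prho, prm, cu, pos, h]
  · by_cases h : m = l
    · subst h
      simp [frq, frp, prs, prho, prm, cu, pos]
    · simp [frq, frp, prs, prho, prm, cu, pos, h]
  · by_cases h : m = l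
    · subst h
      simp [frq, frp, prs, prho, prm, cu, pos]
    · simp [frq, frp, prs, prho, prm, cu, pos, h]

lemma cu_trl (l : Fin d) (ζ : k) (w : CI (Fin d) N → k) :
    rx cu (trl l ζ w) = prho (M := 1) (N := fun _ => N) (d := fun _ => d) (fun _ => 1) (Pi.single ⟨0, l⟩ ζ) (rx cu w) := by
  classical
  funext q
  rcases q with (⟨j, m⟩ | ⟨j, m⟩) | ⟨⟨j, m⟩, i⟩
  · simp [trl, rx, cu, prho, prm]
  · obtain rfl := Subsingleton.elim 0 j
    by_cases h : m = l
    · subst h
      simp [trl, rx, cu, prho, prm]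
    · have h' : (⟨0, m⟩ : LL (M := 1) fun _ => d) ≠ ⟨0, l⟩ := by simpa using h
      simp [trl, rx, cu, prho, prm, h, h', Pi.single_eq_of_ne]
  · simp [trl, rx, cu, prho, prm]

/-- `χ` is a non-trivial character of the zeros of `A`. -/
structure IsChr (A : Polynomial k) (χ : k → K) : Prop where
  zero : χ 0 = 1
  add : ∀ ζ ∈ zer A, ∀ ξ ∈ zer A, χ (ζ + ξ) = χ ζ * χ ξ
  ne : ∃ ζ ∈ zer A, χ ζ ≠ 1

lemma IsChr.sum {A : Polynomial k} {χ : k → K} (h : IsChr A χ) (hA : IsAdditive A) (hA0 : A ≠ 0) :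
    ∑ ζ ∈ zer A, χ ζ = 0 := by
  obtain ⟨ξ, hξ, hξ1⟩ := h.ne
  have h1 := sum_shift hA hA0 χ ((mem_zer hA0).mp hξ)
  have h2 : ∑ ζ ∈ zer A, χ (ξ + ζ) = χ ξ * ∑ ζ ∈ zer A, χ ζ := by
    rw [Finset.mul_sum]
    exact Finset.sum_congr rfl fun ζ hζ => h.add ξ hξ ζ hζ
  rw [h2] at h1
  have h3 : (χ ξ - 1) * ∑ ζ ∈ zer A, χ ζ = 0 := by rw [sub_mul, one_mul, h1, sub_self]
  exact (mul_eq_zero.mp h3).resolve_left (sub_ne_zero.mpr hξ1)

lemma IsChr.prod {A : Polynomial k} {χ : k → K} (h : IsChr A χ) (hA : IsAdditive A) (hA0 : A ≠ 0) {β : Type}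
    (s : Finset β) (α : β → k) (hα : ∀ l, A.eval (α l) = 0) : ∏ l ∈ s, χ (α l) = χ (∑ l ∈ s, α l) := by
  classical
  induction s using Finset.induction_on with
  | empty => simp [h.zero]
  | insert a s ha ih =>
    rw [Finset.prod_insert ha, Finset.sum_insert ha, ih, h.add _ ((mem_zer hA0).mpr (hα a)) _ ?_]
    rw [mem_zer hA0, hA.map_sum]
    exact Finset.sum_eq_zero fun l _ => hα l

section

variable {T : Homology k K} {Q : ℕ} {χ : k → K} {α : Fin d → K} {z : T.H (pp A f0 f P d)}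

/-- The operator of an automorphism. -/
noncomputable abbrev ract (T : Homology k K) (A f0 : Polynomial k) (f : Fin N → Polynomial k) (P : Fin N → k) {d : ℕ}
    (σ : Equiv.Perm (Fin d)) (α : LL (M := 1) (fun _ => d) → k) :
    T.H (pp A f0 f P d) →ₗ[K] T.H (pp A f0 f P d) :=
  T.push _ _ (prho (M := 1) (N := fun _ => N) (d := fun _ => d) (fun _ => σ) α)

lemma ract_ract (hT : T.IsBorelMoore) (hA : IsAdditive A) (σ σ' : Equiv.Perm (Fin d))
    {β β' : LL (M := 1) (fun _ => d) → k} (hβ : ∀ l, A.eval (β l) = 0) (hβ' : ∀ l, A.eval (β' l) = 0)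
    (z : T.H (pp A f0 f P d)) :
    ract T A f0 f P σ' β' (ract T A f0 f P σ β z) =
      ract T A f0 f P (σ * σ') (fun l => β (prm (fun _ => σ') l) + β' l) z := by
  have h1 : ∀ l, A.eval (β (prm (fun _ => σ') l) + β' l) = 0 := fun l => by rw [hA, hβ, hβ', add_zero]
  exact push_comp hT (isZeroSet_ppow _ _ _ _ _) (isZeroSet_ppow _ _ _ _ _) (isZeroSet_ppow _ _ _ _ _)
    (IsAut.fin (isAut_prho hA _ hβ)) (IsAut.fin (isAut_prho hA _ hβ')) (IsAut.fin (isAut_prho hA _ h1))
    (fun w _ => prho_prho _ _ _ _ w) z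

lemma ract_one (hT : T.IsBorelMoore) (hA : IsAdditive A) (hA0 : A ≠ 0) (hχ : IsChr A χ)
    (hz : ∀ l ζ, ζ ∈ zer A → ract T A f0 f P 1 (Pi.single l ζ) z = χ ζ • z)
    {β : LL (M := 1) (fun _ => d) → k} (hβ : ∀ l, A.eval (β l) = 0) :
    ract T A f0 f P 1 β z = χ (∑ l, β l) • z := by
  classical
  have key : ∀ s : Finset (LL (M := 1) fun _ => d),
      ract T A f0 f P 1 (fun l => if l ∈ s then β l else 0) z = (∏ l ∈ s, χ (β l)) • z := by
    intro s
    induction s using Finset.induction_on with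
    | empty =>
      simp only [Finset.notMem_empty, if_false, Finset.prod_empty, one_smul]
      refine push_id hT (isZeroSet_ppow _ _ _ _ _) (IsAut.fin (isAut_prho hA _ fun _ => hA.map_zero)) ?_ z
      intro w _
      exact prho_one w
    | insert a s ha ih =>
      have h1 : ∀ l, A.eval (if l ∈ s then β l else 0) = 0 := fun l => by
        split_ifs
        · exact hβ l
        · exact hA.map_zero
      have h2 : ∀ l, A.eval ((Pi.single a (β a) : LL (M := 1) (fun _ => d) → k) l) = 0 := fun l => by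
        by_cases h : l = a
        · subst h
          rw [Pi.single_eq_same]
          exact hβ l
        · rw [Pi.single_eq_of_ne h]
          exact hA.map_zero
      have h3 := ract_ract hT hA 1 1 h1 h2 z
      have h4 : (fun l => (if prm (fun _ => (1 : Equiv.Perm (Fin d))) l ∈ s then
          β (prm (fun _ => (1 : Equiv.Perm (Fin d))) l) else 0) +
          (Pi.single a (β a) : LL (M := 1) (fun _ => d) → k) l) = fun l => if l ∈ insert a s then β l else 0 := by
        funext l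
        have h5 : prm (fun _ => (1 : Equiv.Perm (Fin d))) l = l := rfl
        rw [h5]
        by_cases h : l = a
        · subst h
          simp [ha]
        · rw [Pi.single_eq_of_ne h, add_zero]
          simp [h]
      rw [h4, one_mul] at h3
      rw [← h3, ih, map_smul, hz a (β a) ((mem_zer hA0).mpr (hβ a)), smul_smul, Finset.prod_insert ha, mul_comm]
  have h1 := key univ
  simp only [Finset.mem_univ, if_true] at h1
  rw [h1, hχ.prod hA hA0 univ β hβ]

lemma ract_eq (hT : T.IsBorelMoore) (hA : IsAdditive A) (hA0 : A ≠ 0) (hχ : IsChr A χ)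
    (hz : ∀ l ζ, ζ ∈ zer A → ract T A f0 f P 1 (Pi.single l ζ) z = χ ζ • z) (σ : Equiv.Perm (Fin d))
    {β : LL (M := 1) (fun _ => d) → k} (hβ : ∀ l, A.eval (β l) = 0) :
    ract T A f0 f P σ β z = χ (∑ l, β l) • ract T A f0 f P σ (fun _ => 0) z := by
  have h0 : A.eval 0 = 0 := hA.map_zero
  -- the translation first
  have h1 := ract_ract hT hA (β := fun l => β (prm (fun _ => σ⁻¹) l)) (β' := fun _ => 0) 1 σ
    (fun l => hβ _) (fun _ => h0) z
  have h2 : (fun l => β (prm (fun _ => σ⁻¹) (prm (fun _ => σ) l)) + (0 : k)) = β := by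
    funext l
    rw [add_zero]
    have h3 : prm (fun _ => σ⁻¹) (prm (fun _ => σ) l) = l := by
      rcases l with ⟨j, m⟩
      exact congrArg (fun m' => (⟨j, m'⟩ : LL (M := 1) fun _ => d)) (σ.symm_apply_apply m)
    rw [h3]
  rw [h2, one_mul] at h1
  rw [← h1, ract_one hT hA hA0 hχ hz (fun l => hβ _), map_smul]
  congr 2
  exact CP.sum_prm (fun _ => σ⁻¹) β

/-- The sum over the permutations with weights. -/
noncomputable def wsum (T : Homology k K) (A f0 : Polynomial k) (f : Fin N → Polynomial k) (P : Fin N → k) {d : ℕ}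
    (α : Fin d → K) (z : T.H (pp A f0 f P d)) (s : Finset (Fin d × Fin d)) : T.H (pp A f0 f P d) :=
  ∑ σ : Equiv.Perm (Fin d), (∏ p ∈ s, (α (σ p.1) - α p.2)) • ract T A f0 f P σ (fun _ => 0) z

lemma det_wsum (hT : T.IsBorelMoore) (hA : IsAdditive A) (hA0 : A ≠ 0) (hχ : IsChr A χ)
    (hz : ∀ l ζ, ζ ∈ zer A → ract T A f0 f P 1 (Pi.single l ζ) z = χ ζ • z)
    (l0 : LL (M := 1) (fun _ => d)) :
    Det (M := 1) (N := fun _ => N) T A (fun _ => f0) (fun _ => f) (fun _ => P) (fun _ => 1) l0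
      (wsum T A f0 f P α z ∅) := by
  classical
  have h0 : A.eval 0 = 0 := hA.map_zero
  have hw : wsum T A f0 f P α z ∅ = ∑ σ : Equiv.Perm (Fin d), ract T A f0 f P σ (fun _ => 0) z := by
    unfold wsum
    simp only [Finset.prod_empty, one_smul]
  rw [hw]
  constructor
  · intro σ' β hβ hs
    obtain ⟨τ, rfl⟩ : ∃ τ : Equiv.Perm (Fin d), σ' = fun _ => τ :=
      ⟨σ' 0, by funext j; obtain rfl := Subsingleton.elim 0 j; rfl⟩
    show ract T A f0 f P τ β _ = _
    rw [map_sum]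
    have h1 : ∀ σ : Equiv.Perm (Fin d), ract T A f0 f P τ β (ract T A f0 f P σ (fun _ => 0) z) =
        ract T A f0 f P (σ * τ) (fun _ => 0) z := by
      intro σ
      rw [ract_ract hT hA σ τ (fun _ => h0) hβ, ract_eq hT hA hA0 hχ hz]
      · have h2 : ∑ l, ((0 : k) + β l) = 0 := by
          simp only [zero_add]
          simpa using hs
        rw [h2, hχ.zero, one_smul]
      · intro l
        rw [zero_add]
        exact hβ l
    rw [Finset.sum_congr rfl fun σ _ => h1 σ]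
    exact Equiv.sum_comp (Equiv.mulRight τ) fun σ => ract T A f0 f P σ (fun _ => 0) z
  · show ∑ ζ ∈ zer A, ract T A f0 f P 1 (Pi.single l0 ζ) _ = 0
    simp only [map_sum]
    rw [Finset.sum_comm]
    refine Finset.sum_eq_zero fun σ _ => ?_
    have h1 : ∀ ζ ∈ zer A, ract T A f0 f P 1 (Pi.single l0 ζ) (ract T A f0 f P σ (fun _ => 0) z) =
        χ ζ • ract T A f0 f P σ (fun _ => 0) z := by
      intro ζ hζ
      have h2 : ∀ l, A.eval ((Pi.single l0 ζ : LL (M := 1) (fun _ => d) → k) l) = 0 := fun l => by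
        by_cases h : l = l0
        · subst h
          rw [Pi.single_eq_same]
          exact (mem_zer hA0).mp hζ
        · rw [Pi.single_eq_of_ne h]
          exact h0
      rw [ract_ract hT hA σ 1 (fun _ => h0) h2, ract_eq hT hA hA0 hχ hz]
      · have h3 : ∑ l, ((0 : k) + (Pi.single l0 ζ : LL (M := 1) (fun _ => d) → k) l) = ζ := by
          simp only [zero_add]
          rw [Finset.sum_pi_single']
          simp
        rw [h3, mul_one]
      · intro l
        rw [zero_add]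
        exact h2 l
    rw [Finset.sum_congr rfl h1, ← Finset.sum_smul, hχ.sum hA hA0, zero_smul]

lemma frq_ract (hT : T.IsBorelMoore) (hA : IsAdditive A) (hO : IsOver Q A f0 f P)
    (hz : ∀ l, T.push _ (pp A f0 f P d) (frq Q l) z = α l • z) (σ : Equiv.Perm (Fin d)) (l : Fin d) :
    T.push _ (pp A f0 f P d) (frq Q l) (ract T A f0 f P σ (fun _ => 0) z) =
      α (σ l) • ract T A f0 f P σ (fun _ => 0) z := by
  have h0 : ∀ _ : LL (M := 1) (fun _ => d), A.eval 0 = 0 := fun _ => hA.map_zero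
  rw [← map_smul, ← hz (σ l)]
  exact push_comm hT (isZeroSet_ppow _ _ _ _ _) (isZeroSet_ppow _ _ _ _ _) (isZeroSet_ppow _ _ _ _ _)
    (isZeroSet_ppow _ _ _ _ _) (IsAut.fin (isAut_prho hA _ h0)) (fin_frq hO l) (fin_frq hO (σ l))
    (IsAut.fin (isAut_prho hA _ h0)) (fun w _ => frq_prs Q σ l w) z

lemma wsum_insert (hT : T.IsBorelMoore) (hA : IsAdditive A) (hO : IsOver Q A f0 f P)
    (hz : ∀ l, T.push _ (pp A f0 f P d) (frq Q l) z = α l • z) {s : Finset (Fin d × Fin d)}
    {p : Fin d × Fin d} (hp : p ∉ s) :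
    wsum T A f0 f P α z (insert p s) = T.push _ (pp A f0 f P d) (frq Q p.1) (wsum T A f0 f P α z s) -
      α p.2 • wsum T A f0 f P α z s := by
  unfold wsum
  rw [map_sum, Finset.smul_sum, ← Finset.sum_sub_distrib]
  refine Finset.sum_congr rfl fun σ _ => ?_
  rw [map_smul, frq_ract hT hA hO hz, Finset.prod_insert hp, smul_smul, smul_smul, ← sub_smul]
  congr 1
  ring

lemma wsum_top (hT : T.IsBorelMoore) (hA : IsAdditive A) :
    wsum T A f0 f P α z (univ.filter fun p : Fin d × Fin d => p.1 ≠ p.2) =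
      (∏ p ∈ univ.filter fun p : Fin d × Fin d => p.1 ≠ p.2, (α p.1 - α p.2)) • z := by
  classical
  unfold wsum
  rw [Finset.sum_eq_single_of_mem (1 : Equiv.Perm (Fin d)) (mem_univ _)]
  · congr 1
    refine push_id hT (isZeroSet_ppow _ _ _ _ _) (IsAut.fin (isAut_prho hA _ fun _ => hA.map_zero)) ?_ z
    intro w _
    exact prho_one w
  · intro σ _ hσ
    obtain ⟨l, hl⟩ : ∃ l, σ l ≠ l := by
      by_contra h
      push Not at h
      exact hσ (Equiv.ext h)
    rw [Finset.prod_eq_zero (i := (l, σ l)) (by simpa using hl.symm) (sub_self _), zero_smul]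

end

/-- **The classes with the eigenvalues of a determinant come from `G`.** -/
lemma det_step [IsAlgClosed k] [CharZero K] {C : CycleMap k K} (hC : C.IsBorelMoore) (hA : IsAdditive A)
    (hA0 : A ≠ 0) (hP : Function.Injective P) (hm0 : (f0.natDegree : k) ≠ 0)
    (hm : ∀ i, ((f i).natDegree : k) ≠ 0) (hd : d + 1 = f0.natDegree + ∑ i, ((f i).natDegree + 1)) {n : ℕ}
    (he : d = 2 * n) (hd0 : 0 < d) {Q : ℕ} (hO : IsOver Q A f0 f P) {χ : k → K} (hχ : IsChr A χ) {α : Fin d → K}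
    (hα : Function.Injective α) (hon : Onto C (Set.univ : Set (Fin n → k))) (y : C.T.H (cpow A f0 f P (Fin d)))
    (hF : ∀ l, C.T.push _ (cpow A f0 f P (Fin d)) (frl Q l) y = α l • y)
    (hT : ∀ l, ∀ ζ ∈ zer A, C.T.push _ (cpow A f0 f P (Fin d)) (trl l ζ) y = χ ζ • y) :
    ∃ x, C.cl _ x = y := by
  classical
  have hX : IsZeroSet (cpow A f0 f P (Fin d)) := isZeroSet_cpow _ _ _ _ _
  have hY : IsZeroSet (pp A f0 f P d) := isZeroSet_ppow _ _ _ _ _
  have hi : IsInv (cpow A f0 f P (Fin d)) (pp A f0 f P d) (rx cu) (rx cv) := cu_inv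
  let z : C.T.H (pp A f0 f P d) := C.T.push _ _ (rx cu) y
  have hzF : ∀ l, C.T.push _ (pp A f0 f P d) (frq Q l) z = α l • z := by
    intro l
    rw [← map_smul, ← hF l]
    exact push_comm hC.target hX hY hY hX hi.fin (fin_frq hO l) (fin_frl hO l) hi.fin
      (fun w _ => (cu_frl Q l w).symm) y
  have hzT : ∀ l ζ, ζ ∈ zer A → ract C.T A f0 f P 1 (Pi.single l ζ) z = χ ζ • z := by
    rintro ⟨j, l⟩ ζ hζ
    obtain rfl := Subsingleton.elim 0 j
    have hζ' := (mem_zer hA0).mp hζ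
    have h2 : ∀ m, A.eval ((Pi.single ⟨0, l⟩ ζ : LL (M := 1) (fun _ => d) → k) m) = 0 := fun m => by
      by_cases h : m = ⟨0, l⟩
      · subst h
        rw [Pi.single_eq_same]
        exact hζ'
      · rw [Pi.single_eq_of_ne h]
        exact hA.map_zero
    rw [← map_smul, ← hT l ζ hζ]
    exact push_comm hC.target hX hY hY hX hi.fin (IsAut.fin (isAut_prho hA _ h2)) (fin_trl hA l hζ') hi.fin
      (fun w _ => (cu_trl l ζ w).symm) y
  obtain ⟨ζ, hζ, hζ1⟩ := hχ.ne
  have hζ0 : ζ ≠ 0 := fun h => hζ1 (by rw [h, hχ.zero])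
  have hdet := (det_onto_iff (M := 1) (N := fun _ => N) (d := fun _ => d) (A := A) (f0 := fun _ => f0)
    (f := fun _ => f) (P := fun _ => P) (c := fun _ => 1) hC hA hA0 (fun _ => hP) (fun _ => hm0) (fun _ => hm)
    (fun _ => hd) (n := n) (by simpa using he) (fun _ => one_ne_zero) (fun _ y => by rw [one_mul, one_mul])
    ⟨0, ⟨0, hd0⟩⟩ ((mem_zer hA0).mp hζ) hζ0).mpr hon
  -- all weighted sums come from `G`
  have hall : ∀ s : Finset (Fin d × Fin d), ∃ g, C.cl (pp A f0 f P d) g = wsum C.T A f0 f P α z s := by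
    intro s
    induction s using Finset.induction_on with
    | empty =>
      obtain ⟨g, -, hg⟩ := hdet _ (det_wsum (α := α) hC.target hA hA0 hχ hzT ⟨0, ⟨0, hd0⟩⟩)
      exact ⟨g, hg⟩
    | insert p s hp ih =>
      obtain ⟨g, hg⟩ := ih
      refine ⟨C.G.push _ (pp A f0 f P d) (frq Q p.1) g - α p.2 • g, ?_⟩
      rw [map_sub, map_smul, hC.img _ _ _ hY hY (fin_frq hO p.1), hg, wsum_insert hC.target hA hO hzF hp]
  obtain ⟨g, hg⟩ := hall (univ.filter fun p : Fin d × Fin d => p.1 ≠ p.2)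
  rw [wsum_top hC.target hA] at hg
  set e : K := ∏ p ∈ univ.filter fun p : Fin d × Fin d => p.1 ≠ p.2, (α p.1 - α p.2) with he'
  have he0 : e ≠ 0 := Finset.prod_ne_zero_iff.mpr fun p hp => sub_ne_zero.mpr fun h =>
    (Finset.mem_filter.mp hp).2 (hα h)
  refine ⟨C.G.push _ _ (rx cv) (e⁻¹ • g), ?_⟩
  rw [hC.img _ _ _ hY hX hi.symm.fin, map_smul, hg, smul_smul, inv_mul_cancel₀ he0, one_smul]
  exact hi.push_push hC.target hX hY y

end Pool.Agent.U436.CW
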