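import Pool.Agent.U436.CS.Rel

/-!
# Composites of finite maps
-/

set_option autoImplicit false

namespace Pool.Agent.U436.CW

open Pool.Agent.U436.AS Pool.Agent.U436.CT Pool.Agent.U436.CS

variable {k : Type} [Field k] {ι κ μ : Type}

lemma isPolMap_comp {f : (ι → k) → κ → k} {g : (κ → k) → μ → k} (hf : IsPolMap f) (hg : IsPolMap g) :
    IsPolMap fun y => g (f y) := fun j => (hg j).comp hf

lemma fin_comp {X : Set (ι → k)} {Y : Set (κ → k)} {W : Set (μ → k)} {f : (ι → k) → κ → k}
    {g : (κ → k) → μ → k} (hf : IsFiniteMap X Y f) (hg : IsFiniteMap Y W g) :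
    IsFiniteMap X W fun y => g (f y) := by
  refine ⟨isPolMap_comp hf.1 hg.1, fun x hx => hg.2.1 _ (hf.2.1 x hx), fun i => ?_⟩
  let _ : Algebra (MvPolynomial μ k) (X → k) := (pull X fun y => g (f y)).toAlgebra
  -- the pull back of functions on `Y`
  let res : (Y → k) →+* (X → k) := RingHom.pi fun x : X => Pi.evalRingHom (fun _ : Y => k) ⟨f x.1, hf.2.1 _ x.2⟩
  have h1 : res.comp (pull Y g) = pull X fun y => g (f y) := by
    refine RingHom.ext fun F => ?_
    funext x
    rfl
  -- the coordinates of `Y` are integral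
  have h2 : ∀ j : κ, IsIntegral (MvPolynomial μ k) (fun x : X => f x.1 j) := by
    intro j
    obtain ⟨p, hp, hp0⟩ := hg.2.2 j
    refine ⟨p, hp, ?_⟩
    show Polynomial.eval₂ (pull X fun y => g (f y)) _ p = 0
    rw [← h1]
    have h3 : (fun x : X => f x.1 j) = res (fun y : Y => (y : κ → k) j) := rfl
    rw [h3, ← Polynomial.hom_eval₂, hp0, map_zero]
  have h3 : ∀ F : MvPolynomial κ k, pull X f F ∈ integralClosure (MvPolynomial μ k) (X → k) := by
    intro F
    induction F using MvPolynomial.induction_on with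
    | C a =>
      have h4 : pull X f (MvPolynomial.C a) = algebraMap (MvPolynomial μ k) (X → k) (MvPolynomial.C a) := by
        funext x
        show MvPolynomial.eval _ _ = MvPolynomial.eval _ _
        rw [MvPolynomial.eval_C, MvPolynomial.eval_C]
      rw [h4]
      exact Subalgebra.algebraMap_mem _ _
    | add p q hp hq =>
      rw [map_add]
      exact Subalgebra.add_mem _ hp hq
    | mul_X p n hp =>
      rw [map_mul]
      refine Subalgebra.mul_mem _ hp ?_
      have h4 : pull X f (MvPolynomial.X n) = fun x : X => f x.1 n := by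
        funext x
        show MvPolynomial.eval _ _ = _
        rw [MvPolynomial.eval_X]
      rw [h4]
      exact h2 n
  obtain ⟨p, hp, hp0⟩ := hf.2.2 i
  -- the polynomial with coefficients in the integral closure
  let ψ : MvPolynomial κ k →+* integralClosure (MvPolynomial μ k) (X → k) :=
    (pull X f).codRestrict (integralClosure (MvPolynomial μ k) (X → k)).toSubring h3
  have h5 : IsIntegral (integralClosure (MvPolynomial μ k) (X → k)) (fun x : X => (x : ι → k) i) := by
    refine ⟨p.map ψ, hp.map _, ?_⟩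
    rw [Polynomial.eval₂_map]
    have h6 : (algebraMap (integralClosure (MvPolynomial μ k) (X → k)) (X → k)).comp ψ = pull X f := by
      refine RingHom.ext fun F => ?_
      rfl
    rw [h6]
    exact hp0
  exact isIntegral_trans (R := MvPolynomial μ k) (A := integralClosure (MvPolynomial μ k) (X → k)) _ h5

/-- A square of finite maps. -/
lemma push_comm {K : Type} [Field K] {T : Homology k K} (hT : T.IsBorelMoore) {ν : Type} [Finite ι] [Finite κ]
    [Finite μ] [Finite ν] {X : Set (ι → k)} {Y : Set (κ → k)} {W : Set (μ → k)} {V : Set (ν → k)}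
    {f : (ι → k) → κ → k} {g : (κ → k) → μ → k} {f' : (ι → k) → ν → k} {g' : (ν → k) → μ → k}
    (hX : IsZeroSet X) (hY : IsZeroSet Y) (hW : IsZeroSet W) (hV : IsZeroSet V)
    (hf : IsFiniteMap X Y f) (hg : IsFiniteMap Y W g) (hf' : IsFiniteMap X V f') (hg' : IsFiniteMap V W g')
    (h : ∀ x ∈ X, g (f x) = g' (f' x)) (x : T.H X) :
    T.push Y W g (T.push X Y f x) = T.push V W g' (T.push X V f' x) :=
  (hT.functor.img_img X Y W f g hX hY hW hf hg x).trans
    ((hT.functor.img_eq X W _ _ hX hW (fin_comp hf hg) (fin_comp hf' hg') h x).trans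
      (hT.functor.img_img X V W f' g' hX hV hW hf' hg' x).symm)

lemma push_comp {K : Type} [Field K] {T : Homology k K} (hT : T.IsBorelMoore) [Finite ι] [Finite κ]
    [Finite μ] {X : Set (ι → k)} {Y : Set (κ → k)} {W : Set (μ → k)}
    {f : (ι → k) → κ → k} {g : (κ → k) → μ → k} {h : (ι → k) → μ → k}
    (hX : IsZeroSet X) (hY : IsZeroSet Y) (hW : IsZeroSet W)
    (hf : IsFiniteMap X Y f) (hg : IsFiniteMap Y W g) (hh : IsFiniteMap X W h)
    (e : ∀ x ∈ X, g (f x) = h x) (x : T.H X) :
    T.push Y W g (T.push X Y f x) = T.push X W h x :=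
  (hT.functor.img_img X Y W f g hX hY hW hf hg x).trans
    (hT.functor.img_eq X W _ _ hX hW (fin_comp hf hg) hh e x)

lemma push_id {K : Type} [Field K] {T : Homology k K} (hT : T.IsBorelMoore) [Finite ι]
    {X : Set (ι → k)} {f : (ι → k) → ι → k} (hX : IsZeroSet X) (hf : IsFiniteMap X X f)
    (e : ∀ x ∈ X, f x = x) (x : T.H X) : T.push X X f x = x :=
  (hT.functor.img_eq X X f (fun y => y) hX hX hf (fin_incl subset_rfl) e x).trans (hT.functor.img_id X hX x)

/-- The two maps are inverse to each other. -/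
structure IsInv (X : Set (ι → k)) (Y : Set (κ → k)) (φ : (ι → k) → κ → k) (ψ : (κ → k) → ι → k) : Prop where
  pol : IsPolMap φ
  pol' : IsPolMap ψ
  mem : ∀ x ∈ X, φ x ∈ Y
  mem' : ∀ y ∈ Y, ψ y ∈ X
  left : ∀ x ∈ X, ψ (φ x) = x
  right : ∀ y ∈ Y, φ (ψ y) = y

lemma IsInv.symm {X : Set (ι → k)} {Y : Set (κ → k)} {φ : (ι → k) → κ → k} {ψ : (κ → k) → ι → k}
    (h : IsInv X Y φ ψ) : IsInv Y X ψ φ := ⟨h.pol', h.pol, h.mem', h.mem, h.right, h.left⟩

lemma IsInv.fin {X : Set (ι → k)} {Y : Set (κ → k)} {φ : (ι → k) → κ → k} {ψ : (κ → k) → ι → k}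
    (h : IsInv X Y φ ψ) : IsFiniteMap X Y φ :=
  ⟨h.pol, h.mem, fun i => Itg.of_pol (F := fun x : ι → k => x i) (h.pol' i) fun x hx => by rw [h.left x hx]⟩

lemma IsInv.push_push {K : Type} [Field K] {T : Homology k K} (hT : T.IsBorelMoore) [Finite ι] [Finite κ]
    {X : Set (ι → k)} {Y : Set (κ → k)} {φ : (ι → k) → κ → k} {ψ : (κ → k) → ι → k}
    (h : IsInv X Y φ ψ) (hX : IsZeroSet X) (hY : IsZeroSet Y) (x : T.H X) :
    T.push Y X ψ (T.push X Y φ x) = x :=
  (push_comp hT hX hY hX h.fin h.symm.fin (fin_incl subset_rfl) h.left x).trans (hT.functor.img_id X hX x)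

/-- `cl` is onto on `X`. -/
def Onto {K : Type} [Field K] (C : CycleMap k K) (X : Set (ι → k)) : Prop := ∀ y : C.T.H X, ∃ x, C.cyc X x = y

lemma IsInv.onto {K : Type} [Field K] {C : CycleMap k K} (hC : C.IsBorelMoore) [Finite ι] [Finite κ]
    {X : Set (ι → k)} {Y : Set (κ → k)} {φ : (ι → k) → κ → k} {ψ : (κ → k) → ι → k}
    (h : IsInv X Y φ ψ) (hX : IsZeroSet X) (hY : IsZeroSet Y) (hO : Onto C X) : Onto C Y := by
  intro y
  obtain ⟨x, hx⟩ := hO (C.T.push Y X ψ y)
  refine ⟨C.G.push X Y φ x, ?_⟩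
  show C.cl Y _ = y
  rw [hC.img X Y φ hX hY h.fin]
  change C.cl X x = _ at hx
  rw [hx]
  exact h.symm.push_push hC.target hY hX y

/-- The map which permutes the coordinates. -/
def rx (e : κ → ι) (w : ι → k) : κ → k := fun j => w (e j)

lemma isPolMap_rx (e : κ → ι) : IsPolMap (rx e : (ι → k) → κ → k) := fun j => IsPol.coord (e j)

/-- The power map in the coordinates `i` with `p i`. -/
noncomputable def frp (Q : ℕ) (p : ι → Prop) (w : ι → k) : ι → k := by
  classical exact fun i => if p i then w i ^ Q else w i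

lemma isPolMap_frp (Q : ℕ) (p : ι → Prop) : IsPolMap (frp Q p : (ι → k) → ι → k) := by
  classical
  intro i
  by_cases h : p i
  · have h1 : (fun w : ι → k => frp Q p w i) = fun w => w i ^ Q := by funext w; exact if_pos h
    rw [h1]
    exact (IsPol.coord i).pow Q
  · have h1 : (fun w : ι → k => frp Q p w i) = fun w => w i := by funext w; exact if_neg h
    rw [h1]
    exact IsPol.coord i

lemma fin_frp {X : Set (ι → k)} {Q : ℕ} (hQ : Q ≠ 0) (p : ι → Prop) (h : ∀ x ∈ X, frp Q p x ∈ X) :
    IsFiniteMap X X (frp Q p) := by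
  classical
  refine ⟨isPolMap_frp Q p, h, fun i => ?_⟩
  by_cases hi : p i
  · have h1 : Itg X (frp Q p) fun x => x i ^ Q :=
      Itg.of_pol (G := fun y => y i) (IsPol.coord i) fun x _ => (if_pos hi).symm
    have h2 : Itg X (frp Q p) fun x => (Polynomial.X ^ Q : Polynomial k).eval (x i) := by
      have h3 : (fun x : ι → k => (Polynomial.X ^ Q : Polynomial k).eval (x i)) = fun x => x i ^ Q := by
        funext x
        rw [Polynomial.eval_pow, Polynomial.eval_X]
      rw [h3]
      exact h1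
    exact Itg.of_eval (F := fun x : ι → k => x i) (by rw [Polynomial.natDegree_X_pow]; exact hQ) h2
  · exact Itg.of_pol (F := fun x : ι → k => x i) (G := fun y => y i) (IsPol.coord i) fun x _ => (if_neg hi).symm

end Pool.Agent.U436.CW
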