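import Pool.Agent.U436.CW.Main

/-!
# All Tate classes on the powers: the theorem
-/

set_option autoImplicit false

namespace Pool.Agent.U436.CW

open Finset Pool.Agent.U436 Pool.Agent.U436.AS Pool.Agent.U436.CT Pool.Agent.U436.CS

variable {k K : Type} [Field k] [Field K] {N d : ℕ} {Λ τ Ψ : Type} {A f0 : Polynomial k}
  {f : Fin N → Polynomial k} {P : Fin N → k} {Q : ℕ} {R : Set (τ → k)} {S : Set (τ → k)} {C : CycleMap k K}

lemma exists_new [CharZero K] [Finite Λ] [Finite τ] (hC : C.IsBorelMoore) (hA : IsAdditive A) (hA0 : A ≠ 0)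
    (hR : IsZeroSet R)
    (hinv : ∀ (l : Λ) (y : C.T.H (tms (cpow A f0 f P Λ) R)),
      (∀ ζ ∈ zer A, trans C.T A f0 f P R l ζ y = y) → ∃ x, C.cl _ x = y)
    (s : Finset Λ) (y : C.T.H (tms (cpow A f0 f P Λ) R)) :
    ∃ x y', y = C.cl _ x + y' ∧ ∀ l ∈ s, nrl C.T A f0 f P R l y' = 0 := by
  classical
  induction s using Finset.induction_on with
  | empty => exact ⟨0, y, by rw [map_zero, zero_add], fun l hl => absurd hl (Finset.notMem_empty l)⟩
  | insert l s hl ih =>
    obtain ⟨x, y', rfl, h2⟩ := ih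
    have hq : ((zer A).card : K) ≠ 0 := by
      have h3 : (0 : k) ∈ zer A := (mem_zer hA0).mpr hA.map_zero
      exact Nat.cast_ne_zero.mpr (Finset.card_ne_zero_of_mem h3)
    obtain ⟨x2, hx2⟩ := hinv l (nrl C.T A f0 f P R l y') fun ζ hζ =>
      trans_norm hC.target hA hA0 hR l ((mem_zer hA0).mp hζ) y'
    refine ⟨x + ((zer A).card : K)⁻¹ • x2, y' - ((zer A).card : K)⁻¹ • nrl C.T A f0 f P R l y', ?_, fun m hm => ?_⟩
    · rw [map_add, map_smul, hx2]
      abel
    · rcases Finset.mem_insert.mp hm with rfl | hm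
      · rw [map_sub, map_smul, nrl_norm hC.target hA hA0 hR, smul_smul, inv_mul_cancel₀ hq, one_smul, sub_self]
      · rw [map_sub, map_smul, nrl_nrl hC.target hA hA0 hR, h2 m hm, map_zero, smul_zero, sub_zero]

lemma mem_span_eig [Finite Λ] [Finite τ] [Fintype Ψ] {T : Homology k K} (hT : T.IsBorelMoore) (hA : IsAdditive A)
    (hA0 : A ≠ 0) (hO : IsOver Q A f0 f P) (hR : IsZeroSet R) {chr : Ψ → k → K} {α : Ψ × Fin d → K}
    [Nonempty (Ψ × Fin d)] (hα : HasEigenvalues T Q A f0 f P chr α) (s : Finset Λ)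
    (y : T.H (tms (cpow A f0 f P Λ) R)) (hy : ∀ l, nrl T A f0 f P R l y = 0) :
    y ∈ Submodule.span K {x : T.H (tms (cpow A f0 f P Λ) R) | (∀ l, nrl T A f0 f P R l x = 0) ∧
      ∀ l ∈ s, ∃ a, frob T Q A f0 f P R l x = α a • x} := by
  classical
  induction s using Finset.induction_on with
  | empty => exact Submodule.subset_span ⟨hy, fun l hl => absurd hl (Finset.notMem_empty l)⟩
  | insert l s hl ih =>
    refine Submodule.span_le.mpr ?_ ih
    rintro x ⟨hx, hx2⟩
    obtain ⟨p, hp1, hp2⟩ := exists_eig (frob T Q A f0 f P R l) hα.inj x (hα.root R l x hR (isNew_iff.mpr (hx l)))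
    show x ∈ Submodule.span K _
    rw [← hp1]
    refine Submodule.sum_mem _ fun a _ => Submodule.subset_span ⟨fun m => ?_, fun m hm => ?_⟩
    · rw [aeval_comm (frob_nrl hT hA hA0 hO hR l m), hx m, map_zero]
    · rcases Finset.mem_insert.mp hm with rfl | hm
      · exact ⟨a, hp2 a⟩
      · obtain ⟨b, hb⟩ := hx2 m hm
        refine ⟨b, ?_⟩
        rw [aeval_comm (frob_frob hT hO hR m l), hb, map_smul]

/-- The empty power. -/
lemma onto_empty [IsEmpty Λ] [Finite τ] (hC : C.IsBorelMoore) (hR : IsZeroSet R) (h : Onto C R) :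
    Onto C (tms (cpow A f0 f P Λ) R) := by
  have hi : IsInv R (tms (cpow A f0 f P Λ) R) (fun w => Sum.elim (fun q => isEmptyElim (pos q)) w)
      (fun w => w ∘ Sum.inr) := by
    refine ⟨?_, fun j => IsPol.coord _, fun w hw => ⟨fun l => isEmptyElim l, hw⟩, fun w hw => hw.2, fun w _ => rfl,
      fun w _ => ?_⟩
    · rintro (q | q)
      · exact isEmptyElim (pos q)
      · exact IsPol.coord q
    · funext q
      rcases q with q | q
      · exact isEmptyElim (pos q)
      · rfl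
  exact hi.onto hC hR (hXR _ _ _ _ _ hR) h

/-- The invariant classes on one factor come from `G`. -/
lemma inv_step0 [IsAlgClosed k] [Finite Λ] (hC : C.IsBorelMoore) (hop : OpenOnto C)
    (hA : IsAdditive A) (hA0 : A ≠ 0) (l : Λ)
    (hon : Onto (C.times (cpow A f0 f P {m : Λ // ¬ m = l})) (Set.univ : Set (Fin 1 → k)))
    (y : C.T.H (cpow A f0 f P Λ))
    (hy : ∀ ζ ∈ zer A, C.T.push _ (cpow A f0 f P Λ) (trl l ζ) y = y) : ∃ x, C.cl _ x = y := by
  classical
  let ε : Unit ⊕ {m : Λ // ¬ m = l} ≃ Λ :=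
    (Equiv.sumCongr (Equiv.ofUnique Unit {m : Λ // m = l}) (Equiv.refl _)).trans (Equiv.sumCompl fun m => m = l)
  have hε : ε (Sum.inl ()) = l := by
    show (Equiv.sumCompl fun m => m = l) (Sum.inl _) = l
    rw [Equiv.sumCompl_apply_inl]
    exact ((Equiv.ofUnique Unit {m : Λ // m = l}) ()).2
  refine psp_onto ε hC y (inv_onto (hC.times (isZeroSet_cpow _ _ _ _ _))
    (OpenOnto.times hC hop (isZeroSet_cpow _ _ _ _ _)) hA hA0 hon _ fun ζ hζ => ?_)
  have h1 := psp_trl (T := C.T) ε hC.target hA () ((mem_zer hA0).mp hζ) y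
  rw [hε, hy ζ hζ] at h1
  exact h1

lemma inv_step [IsAlgClosed k] [Finite Λ] [Finite τ] (hC : C.IsBorelMoore) (hop : OpenOnto C)
    (hA : IsAdditive A) (hA0 : A ≠ 0) (hS : IsZeroSet S) (n : ℕ) (l : Λ)
    (hon : Onto C (tms (cpow A f0 f P {m : Λ // ¬ m = l}) (affS (1 + n) S)))
    (y : C.T.H (tms (cpow A f0 f P Λ) (affS n S)))
    (hy : ∀ ζ ∈ zer A, trans C.T A f0 f P (affS n S) l ζ y = y) : ∃ x, C.cl _ x = y :=
  inv_step0 (C := C.times (affS n S)) (hC.times (isZeroSet_tms isZeroSet_univ hS))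
    (OpenOnto.times hC hop (isZeroSet_tms isZeroSet_univ hS)) hA hA0 l (onto_rdx hC 1 n hS hon) y hy

/-- The classes with the eigenvalues of a determinant come from `G`. -/
lemma det_step0 [IsAlgClosed k] [CharZero K] [Finite Λ] (hC : C.IsBorelMoore) (hA : IsAdditive A)
    (hA0 : A ≠ 0) (hP : Function.Injective P) (hm0 : (f0.natDegree : k) ≠ 0)
    (hm : ∀ i, ((f i).natDegree : k) ≠ 0) (hd : d + 1 = f0.natDegree + ∑ i, ((f i).natDegree + 1)) {e : ℕ}
    (he : d = 2 * e) (hd0 : 0 < d) (hO : IsOver Q A f0 f P) {χ : k → K} (hχ : IsChr A χ) {α : Fin d → K}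
    (hα : Function.Injective α) {lv : Fin d → Λ} (hlv : Function.Injective lv)
    (hon : Onto (C.times (cpow A f0 f P {m : Λ // ¬ m ∈ Set.range lv})) (Set.univ : Set (Fin e → k)))
    (y : C.T.H (cpow A f0 f P Λ))
    (hF : ∀ i, C.T.push _ (cpow A f0 f P Λ) (frl Q (lv i)) y = α i • y)
    (hT : ∀ i, ∀ ζ ∈ zer A, C.T.push _ (cpow A f0 f P Λ) (trl (lv i) ζ) y = χ ζ • y) : ∃ x, C.cl _ x = y := by
  classical
  let ε : Fin d ⊕ {m : Λ // ¬ m ∈ Set.range lv} ≃ Λ :=
    (Equiv.sumCongr (Equiv.ofInjective lv hlv) (Equiv.refl _)).trans (Equiv.sumCompl fun m => m ∈ Set.range lv)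
  have hε : ∀ i, ε (Sum.inl i) = lv i := by
    intro i
    show (Equiv.sumCompl fun m => m ∈ Set.range lv) (Sum.inl _) = lv i
    rw [Equiv.sumCompl_apply_inl]
    rfl
  refine psp_onto ε hC y (det_step (hC.times (isZeroSet_cpow _ _ _ _ _)) hA hA0 hP hm0 hm hd he hd0 hO hχ hα
      hon _ (fun l => ?_) fun l ζ hζ => ?_)
  · have h1 := psp_frl (T := C.T) ε hC.target hO l y
    rw [hε, hF l, map_smul] at h1
    exact h1
  · have h1 := psp_trl (T := C.T) ε hC.target hA l ((mem_zer hA0).mp hζ) y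
    rw [hε, hT l ζ hζ, map_smul] at h1
    exact h1

lemma det_step' [IsAlgClosed k] [CharZero K] [Finite Λ] [Finite τ] (hC : C.IsBorelMoore) (hA : IsAdditive A)
    (hA0 : A ≠ 0) (hP : Function.Injective P) (hm0 : (f0.natDegree : k) ≠ 0)
    (hm : ∀ i, ((f i).natDegree : k) ≠ 0) (hd : d + 1 = f0.natDegree + ∑ i, ((f i).natDegree + 1)) {e : ℕ}
    (he : d = 2 * e) (hd0 : 0 < d) (hO : IsOver Q A f0 f P) {χ : k → K} (hχ : IsChr A χ) {α : Fin d → K}
    (hα : Function.Injective α) (hS : IsZeroSet S) (n : ℕ) {lv : Fin d → Λ} (hlv : Function.Injective lv)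
    (hon : Onto C (tms (cpow A f0 f P {m : Λ // ¬ m ∈ Set.range lv}) (affS (e + n) S)))
    (y : C.T.H (tms (cpow A f0 f P Λ) (affS n S)))
    (hF : ∀ i, frob C.T Q A f0 f P (affS n S) (lv i) y = α i • y)
    (hT : ∀ i, ∀ ζ ∈ zer A, trans C.T A f0 f P (affS n S) (lv i) ζ y = χ ζ • y) : ∃ x, C.cl _ x = y :=
  det_step0 (C := C.times (affS n S)) (hC.times (isZeroSet_tms isZeroSet_univ hS)) hA hA0 hP hm0 hm hd he hd0 hO
    hχ hα hlv (onto_rdx hC e n hS hon) y hF hT

/-- **The Tate conjecture for the powers.** -/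
theorem powers_onto [IsAlgClosed k] [CharZero K] [Fintype Ψ] [Finite τ] (hC : C.IsBorelMoore)
    (hres : HasRestriction C) (hA : IsAdditive A) (hA0 : A ≠ 0) (hP : Function.Injective P)
    (hm0 : (f0.natDegree : k) ≠ 0) (hm : ∀ i, ((f i).natDegree : k) ≠ 0)
    (hd : d + 1 = f0.natDegree + ∑ i, ((f i).natDegree + 1)) {e : ℕ} (he : d = 2 * e) (hd0 : 0 < d)
    (hO : IsOver Q A f0 f P) {chr : Ψ → k → K} [Nonempty Ψ] {α : Ψ × Fin d → K}
    (hα : HasEigenvalues C.T Q A f0 f P chr α) {dual : Ψ × Fin d → Ψ × Fin d} (hdual : ∀ a, dual a ≠ a)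
    (hS : IsZeroSet S) {E : Set K} (hE : HasTateClasses C.T Q A f0 f P α S E) (hgen : OnlyObvious Q α dual E)
    (hgr : HasGraphs C Q A f0 f P α dual S) (hSO : ∀ n, Onto C (affS n S)) (c : ℕ) :
    ∀ (Λ : Type) [Fintype Λ], Fintype.card Λ = c → ∀ n, Onto C (tms (cpow A f0 f P Λ) (affS n S)) := by
  classical
  have : Nonempty (Ψ × Fin d) := ⟨(Classical.arbitrary Ψ, ⟨0, hd0⟩)⟩
  induction c using Nat.strong_induction_on with
  | _ c ih =>
  intro Λ _ hΛ n
  have hR : IsZeroSet (affS n S) := isZeroSet_tms isZeroSet_univ hS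
  by_cases hemp : IsEmpty Λ
  · exact onto_empty hC hR (hSO n)
  have hne : Nonempty Λ := not_isEmpty_iff.mp hemp
  have hinv : ∀ (l : Λ) (y : C.T.H (tms (cpow A f0 f P Λ) (affS n S))),
      (∀ ζ ∈ zer A, trans C.T A f0 f P (affS n S) l ζ y = y) → ∃ x, C.cl _ x = y := by
    intro l y hy
    refine inv_step hC hres.openOnto hA hA0 hS n l ?_ y hy
    exact ih _ (hΛ ▸ Fintype.card_subtype_lt (x := l) (by simp)) _ rfl _
  -- the classes with all norms zero
  have hnew : ∀ y : C.T.H (tms (cpow A f0 f P Λ) (affS n S)), (∀ l, nrl C.T A f0 f P (affS n S) l y = 0) →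
      ∃ x, C.cl _ x = y := by
    intro y hy
    have h1 := mem_span_eig hC.target hA hA0 hO hR hα univ y hy
    refine (Submodule.span_le (p := LinearMap.range (C.cl (tms (cpow A f0 f P Λ) (affS n S))))).mpr ?_ h1
    rintro x ⟨hx, hx2⟩
    choose a ha using fun l => hx2 l (mem_univ l)
    show ∃ g, C.cl _ g = x
    by_cases hx0 : x = 0
    · exact ⟨0, by rw [map_zero, hx0]⟩
    obtain ⟨β, hβ, m, hm', z, hz⟩ := hE n a x hx0 ha
    let cnt : Ψ × Fin d → ℕ := fun b => (univ.filter fun l => a l = b).card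
    have hcnt : ∏ l, α (a l) = ∏ b, α b ^ cnt b := by
      rw [← Finset.prod_fiberwise univ a fun l => α (a l)]
      refine Finset.prod_congr rfl fun b _ => ?_
      rw [Finset.prod_congr rfl (g := fun _ => α b) fun l hl => by rw [(Finset.mem_filter.mp hl).2],
        Finset.prod_const]
    rw [hcnt] at hz
    have hobv := hgen cnt β hβ m hm' z hz
    have hpos : ∀ b, 0 < cnt b ↔ ∃ l, a l = b := by
      intro b
      rw [Finset.card_pos]
      constructor
      · rintro ⟨l, hl⟩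
        exact ⟨l, (Finset.mem_filter.mp hl).2⟩
      · rintro ⟨l, hl⟩
        exact ⟨l, Finset.mem_filter.mpr ⟨mem_univ l, hl⟩⟩
    by_cases hpair : ∃ l l', a l' = dual (a l)
    · obtain ⟨l, l', hll⟩ := hpair
      have hne' : l ≠ l' := by
        rintro rfl
        exact hdual _ hll.symm
      obtain ⟨δG, δT, h2, h3⟩ := hgr l l' n (a l) hne'
      obtain ⟨w, rfl⟩ := h3 x (isNew_iff.mpr (hx l)) (isNew_iff.mpr (hx l')) (ha l) (by rw [ha l', hll])
      have hlt : Fintype.card {m // m ≠ l ∧ m ≠ l'} < c := by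
        rw [← hΛ]
        exact Fintype.card_subtype_lt (x := l) (by simp)
      obtain ⟨v, rfl⟩ := ih _ hlt {m // m ≠ l ∧ m ≠ l'} rfl (n + 1) w
      exact ⟨δG v, h2 v⟩
    · push Not at hpair
      obtain ⟨l0⟩ := hne
      set ψ := (a l0).1 with hψ
      have hall : ∀ i, ∃ l, a l = (ψ, i) := by
        intro i
        rw [← hpos]
        have h4 := hobv ψ (a l0).2 i
        have h5 : 0 < cnt (ψ, (a l0).2) := (hpos _).mpr ⟨l0, rfl⟩
        have h6 : cnt (dual (ψ, (a l0).2)) = 0 := by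
          by_contra h7
          obtain ⟨l', hl'⟩ := (hpos _).mp (Nat.pos_of_ne_zero h7)
          exact hpair l0 l' hl'
        have h8 : (0 : ℤ) ≤ cnt (dual (ψ, i)) := Nat.cast_nonneg _
        have h9 : (0 : ℤ) < cnt (ψ, (a l0).2) := Nat.cast_pos.mpr h5
        rw [h6, Nat.cast_zero] at h4
        have h10 : (0 : ℤ) < cnt (ψ, i) := by linarith
        exact_mod_cast h10
      choose lv hlv using hall
      have hinj : Function.Injective lv := by
        intro i j hij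
        have h11 := (hlv i).symm.trans ((congrArg a hij).trans (hlv j))
        exact (Prod.mk.inj h11).2
      refine det_step' (α := fun i => α (ψ, i)) hC hA hA0 hP hm0 hm hd he hd0 hO (hα.isChr ψ)
        (fun i j hij => (Prod.mk.inj (hα.inj hij)).2) hS n hinj ?_ x (fun i => ?_) fun i ζ hζ => ?_
      · exact ih _ (hΛ ▸ Fintype.card_subtype_lt (x := lv ⟨0, hd0⟩) (by simp)) _ rfl _
      · rw [ha, hlv]
      · exact hα.trans (affS n S) (lv i) x ψ i hR (isNew_iff.mpr (hx _)) (by rw [ha, hlv]) ζ hζ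
  intro y
  obtain ⟨x, y', rfl, h1⟩ := exists_new hC hA hA0 hR hinv univ y
  obtain ⟨x', rfl⟩ := hnew y' fun l => h1 l (mem_univ l)
  exact ⟨x + x', map_add _ _ _⟩

end Pool.Agent.U436.CW
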