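import Mathlib.LinearAlgebra.Lagrange
import Mathlib.LinearAlgebra.Eigenspace.Basic
import Mathlib.Algebra.Polynomial.AlgebraMap

/-!
# Decomposition in eigenvectors
-/

set_option autoImplicit false

namespace Pool.Agent.U436.CW

open Polynomial Finset

variable {K V Ω : Type} [Field K] [AddCommGroup V] [Module K V]

/-- An operator which commutes with `F` commutes with the polynomials in `F`. -/
lemma aeval_comm {F g : V →ₗ[K] V} (h : ∀ x, g (F x) = F (g x)) (p : K[X]) (x : V) :
    g (aeval F p x) = aeval F p (g x) := by
  have h1 : Commute g F := LinearMap.ext h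
  have h2 : Commute g (aeval F p) := by
    induction p using Polynomial.induction_on' with
    | add p q hp hq => rw [map_add]; exact hp.add_right hq
    | monomial n a =>
      rw [aeval_monomial]
      have h3 : Commute g (algebraMap K (V →ₗ[K] V) a) := (Algebra.commutes a g).symm
      exact h3.mul_right (h1.pow_right n)
  exact LinearMap.congr_fun h2 x

/-- A vector killed by `∏ (F - α a)` is a sum of eigenvectors `p (F) x`. -/
lemma exists_eig [Fintype Ω] [Nonempty Ω] (F : V →ₗ[K] V) {α : Ω → K} (hα : Function.Injective α) (x : V)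
    (hx : aeval F (∏ a, (X - C (α a))) x = 0) :
    ∃ p : Ω → K[X], ∑ a, aeval F (p a) x = x ∧ ∀ a, F (aeval F (p a) x) = α a • aeval F (p a) x := by
  classical
  refine ⟨fun a => Lagrange.basis univ α a, ?_, fun a => ?_⟩
  · have h1 := Lagrange.sum_basis (s := (univ : Finset Ω)) (v := α) hα.injOn univ_nonempty
    have h2 : ∑ a, aeval F (Lagrange.basis univ α a) x = aeval F (∑ a, Lagrange.basis univ α a) x := by
      rw [map_sum, LinearMap.sum_apply]
    rw [h2, h1, map_one, Module.End.one_apply]
  · have h1 : (X - C (α a)) * Lagrange.basis univ α a =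
        C (∏ j ∈ univ.erase a, (α a - α j)⁻¹) * ∏ a, (X - C (α a)) := by
      have h2 : Lagrange.basis univ α a = C (∏ j ∈ univ.erase a, (α a - α j)⁻¹) *
          ∏ j ∈ univ.erase a, (X - C (α j)) := by
        unfold Lagrange.basis Lagrange.basisDivisor
        rw [Finset.prod_mul_distrib, map_prod]
      rw [h2, ← Finset.mul_prod_erase univ (fun a => X - C (α a)) (mem_univ a)]
      ring
    have h3 : aeval F ((X - C (α a)) * Lagrange.basis univ α a) x = 0 := by
      rw [h1, map_mul, Module.End.mul_apply, hx, map_zero]
    rw [map_mul, Module.End.mul_apply, map_sub, aeval_X, aeval_C, LinearMap.sub_apply,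
      Module.algebraMap_end_apply, sub_eq_zero] at h3
    exact h3

end Pool.Agent.U436.CW
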