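import Pool.Agent.U436.CW.Stm

/-!
# All Tate classes on the powers
-/

set_option autoImplicit false

namespace Pool.Agent.U436.CW

open Finset Pool.Agent.U436 Pool.Agent.U436.AS Pool.Agent.U436.CT Pool.Agent.U436.CS

variable {k K : Type} [Field k] [Field K] {N d : ℕ} {Λ Λ1 Λ2 τ Ψ : Type} {A f0 : Polynomial k}
  {f : Fin N → Polynomial k} {P : Fin N → k} {Q : ℕ} {R : Set (τ → k)} {S : Set (τ → k)}

lemma hXR (A f0 : Polynomial k) (f : Fin N → Polynomial k) (P : Fin N → k) (Λ : Type) {R : Set (τ → k)}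
    (hR : IsZeroSet R) : IsZeroSet (tms (cpow A f0 f P Λ) R) := isZeroSet_tms (isZeroSet_cpow _ _ _ _ _) hR

/-! ### The operators commute -/

section operators

variable {T : Homology k K} [Finite Λ] [Finite τ]

lemma frob_frob (hT : T.IsBorelMoore) (hO : IsOver Q A f0 f P) (hR : IsZeroSet R) (l l' : Λ)
    (x : T.H (tms (cpow A f0 f P Λ) R)) :
    frob T Q A f0 f P R l (frob T Q A f0 f P R l' x) = frob T Q A f0 f P R l' (frob T Q A f0 f P R l x) :=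
  push_comm hT (hXR _ _ _ _ _ hR) (hXR _ _ _ _ _ hR) (hXR _ _ _ _ _ hR) (hXR _ _ _ _ _ hR)
    (isFiniteMap_ftm R (fin_frl hO l')) (isFiniteMap_ftm R (fin_frl hO l)) (isFiniteMap_ftm R (fin_frl hO l))
    (isFiniteMap_ftm R (fin_frl hO l')) (fun _ _ => ext_sum (frl_frl Q l l' _) rfl) x

lemma frob_trans (hT : T.IsBorelMoore) (hA : IsAdditive A) (hO : IsOver Q A f0 f P) (hR : IsZeroSet R) (l l' : Λ)
    {ζ : k} (hζ : A.eval ζ = 0) (x : T.H (tms (cpow A f0 f P Λ) R)) :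
    frob T Q A f0 f P R l (trans T A f0 f P R l' ζ x) = trans T A f0 f P R l' ζ (frob T Q A f0 f P R l x) :=
  push_comm hT (hXR _ _ _ _ _ hR) (hXR _ _ _ _ _ hR) (hXR _ _ _ _ _ hR) (hXR _ _ _ _ _ hR)
    (isFiniteMap_ftm R (fin_trl hA l' hζ)) (isFiniteMap_ftm R (fin_frl hO l)) (isFiniteMap_ftm R (fin_frl hO l))
    (isFiniteMap_ftm R (fin_trl hA l' hζ)) (fun _ _ => ext_sum (frl_trl hO l l' hζ _) rfl) x

lemma trans_trans (hT : T.IsBorelMoore) (hA : IsAdditive A) (hR : IsZeroSet R) (l l' : Λ)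
    {ζ ξ : k} (hζ : A.eval ζ = 0) (hξ : A.eval ξ = 0) (x : T.H (tms (cpow A f0 f P Λ) R)) :
    trans T A f0 f P R l ζ (trans T A f0 f P R l' ξ x) = trans T A f0 f P R l' ξ (trans T A f0 f P R l ζ x) :=
  push_comm hT (hXR _ _ _ _ _ hR) (hXR _ _ _ _ _ hR) (hXR _ _ _ _ _ hR) (hXR _ _ _ _ _ hR)
    (isFiniteMap_ftm R (fin_trl hA l' hξ)) (isFiniteMap_ftm R (fin_trl hA l hζ)) (isFiniteMap_ftm R (fin_trl hA l hζ))
    (isFiniteMap_ftm R (fin_trl hA l' hξ)) (fun _ _ => ext_sum (trl_comm l l' ζ ξ _) rfl) x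

lemma trans_add (hT : T.IsBorelMoore) (hA : IsAdditive A) (hR : IsZeroSet R) (l : Λ)
    {ζ ξ : k} (hζ : A.eval ζ = 0) (hξ : A.eval ξ = 0) (x : T.H (tms (cpow A f0 f P Λ) R)) :
    trans T A f0 f P R l ζ (trans T A f0 f P R l ξ x) = trans T A f0 f P R l (ξ + ζ) x :=
  push_comp hT (hXR _ _ _ _ _ hR) (hXR _ _ _ _ _ hR) (hXR _ _ _ _ _ hR)
    (isFiniteMap_ftm R (fin_trl hA l hξ)) (isFiniteMap_ftm R (fin_trl hA l hζ))
    (isFiniteMap_ftm R (fin_trl hA l (by rw [hA, hξ, hζ, add_zero]))) (fun _ _ => ext_sum (trl_trl l ζ ξ _) rfl) x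

/-- The norm. -/
noncomputable def nrl (T : Homology k K) (A f0 : Polynomial k) (f : Fin N → Polynomial k) (P : Fin N → k)
    (R : Set (τ → k)) (l : Λ) : T.H (tms (cpow A f0 f P Λ) R) →ₗ[K] T.H (tms (cpow A f0 f P Λ) R) :=
  ∑ ζ ∈ zer A, trans T A f0 f P R l ζ

omit [Finite Λ] [Finite τ] in
lemma isNew_iff {l : Λ} {x : T.H (tms (cpow A f0 f P Λ) R)} :
    IsNew T A f0 f P R l x ↔ nrl T A f0 f P R l x = 0 := by
  unfold IsNew nrl
  rw [LinearMap.sum_apply]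

lemma frob_nrl (hT : T.IsBorelMoore) (hA : IsAdditive A) (hA0 : A ≠ 0) (hO : IsOver Q A f0 f P) (hR : IsZeroSet R)
    (l l' : Λ) (x : T.H (tms (cpow A f0 f P Λ) R)) :
    nrl T A f0 f P R l' (frob T Q A f0 f P R l x) = frob T Q A f0 f P R l (nrl T A f0 f P R l' x) := by
  unfold nrl
  rw [LinearMap.sum_apply, LinearMap.sum_apply, map_sum]
  exact Finset.sum_congr rfl fun ζ hζ => (frob_trans hT hA hO hR l l' ((mem_zer hA0).mp hζ) x).symm

lemma trans_nrl (hT : T.IsBorelMoore) (hA : IsAdditive A) (hA0 : A ≠ 0) (hR : IsZeroSet R)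
    (l l' : Λ) {ζ : k} (hζ : A.eval ζ = 0) (x : T.H (tms (cpow A f0 f P Λ) R)) :
    nrl T A f0 f P R l' (trans T A f0 f P R l ζ x) = trans T A f0 f P R l ζ (nrl T A f0 f P R l' x) := by
  unfold nrl
  rw [LinearMap.sum_apply, LinearMap.sum_apply, map_sum]
  exact Finset.sum_congr rfl fun ξ hξ => trans_trans hT hA hR l' l ((mem_zer hA0).mp hξ) hζ x

lemma nrl_nrl (hT : T.IsBorelMoore) (hA : IsAdditive A) (hA0 : A ≠ 0) (hR : IsZeroSet R)
    (l l' : Λ) (x : T.H (tms (cpow A f0 f P Λ) R)) :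
    nrl T A f0 f P R l' (nrl T A f0 f P R l x) = nrl T A f0 f P R l (nrl T A f0 f P R l' x) := by
  conv_lhs => rw [nrl, nrl, LinearMap.sum_apply, LinearMap.sum_apply]
  rw [nrl, LinearMap.sum_apply]
  have h1 : ∀ ξ ∈ zer A, trans T A f0 f P R l' ξ (∑ ζ ∈ zer A, trans T A f0 f P R l ζ x) =
      ∑ ζ ∈ zer A, trans T A f0 f P R l ζ (trans T A f0 f P R l' ξ x) := by
    intro ξ hξ
    rw [map_sum]
    exact Finset.sum_congr rfl fun ζ hζ =>
      trans_trans hT hA hR l' l ((mem_zer hA0).mp hξ) ((mem_zer hA0).mp hζ) x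
  rw [Finset.sum_congr rfl h1, Finset.sum_comm]
  refine Finset.sum_congr rfl fun ζ _ => ?_
  rw [nrl, LinearMap.sum_apply, map_sum]

lemma trans_norm (hT : T.IsBorelMoore) (hA : IsAdditive A) (hA0 : A ≠ 0) (hR : IsZeroSet R)
    (l : Λ) {ζ : k} (hζ : A.eval ζ = 0) (x : T.H (tms (cpow A f0 f P Λ) R)) :
    trans T A f0 f P R l ζ (nrl T A f0 f P R l x) = nrl T A f0 f P R l x := by
  unfold nrl
  rw [LinearMap.sum_apply, map_sum, ← sum_shift hA hA0 (fun ξ => trans T A f0 f P R l ξ x) hζ]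
  refine Finset.sum_congr rfl fun ξ hξ => ?_
  rw [trans_add hT hA hR l hζ ((mem_zer hA0).mp hξ), add_comm]

lemma nrl_norm (hT : T.IsBorelMoore) (hA : IsAdditive A) (hA0 : A ≠ 0) (hR : IsZeroSet R)
    (l : Λ) (x : T.H (tms (cpow A f0 f P Λ) R)) :
    nrl T A f0 f P R l (nrl T A f0 f P R l x) = ((zer A).card : K) • nrl T A f0 f P R l x := by
  have h1 : nrl T A f0 f P R l (nrl T A f0 f P R l x) =
      ∑ ζ ∈ zer A, trans T A f0 f P R l ζ (nrl T A f0 f P R l x) := by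
    conv_lhs => rw [nrl, LinearMap.sum_apply]
    rfl
  rw [h1, Finset.sum_congr rfl fun ζ hζ => trans_norm hT hA hA0 hR l ((mem_zer hA0).mp hζ) x, Finset.sum_const,
    Nat.cast_smul_eq_nsmul]

end operators

/-! ### Splitting -/

/-- The coordinates of `C ^ Λ × 𝔸 ^ (m + n) × S` and of `(𝔸 ^ m × C ^ Λ) × (𝔸 ^ n × S)`. -/
def rdx (m n : ℕ) {ι : Type} : (Fin m ⊕ ι) ⊕ (Fin n ⊕ τ) → ι ⊕ (Fin (m + n) ⊕ τ)
  | Sum.inl (Sum.inl i) => Sum.inr (Sum.inl (finSumFinEquiv (Sum.inl i)))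
  | Sum.inl (Sum.inr q) => Sum.inl q
  | Sum.inr (Sum.inl j) => Sum.inr (Sum.inl (finSumFinEquiv (Sum.inr j)))
  | Sum.inr (Sum.inr t) => Sum.inr (Sum.inr t)

/-- The inverse. -/
def xdr (m n : ℕ) {ι : Type} : ι ⊕ (Fin (m + n) ⊕ τ) → (Fin m ⊕ ι) ⊕ (Fin n ⊕ τ)
  | Sum.inl q => Sum.inl (Sum.inr q)
  | Sum.inr (Sum.inl i) => (finSumFinEquiv.symm i).elim (fun a => Sum.inl (Sum.inl a)) fun b => Sum.inr (Sum.inl b)
  | Sum.inr (Sum.inr t) => Sum.inr (Sum.inr t)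

lemma rdx_inv (m n : ℕ) {ι : Type} (X : Set (ι → k)) (S : Set (τ → k)) :
    IsInv (tms X (affS (m + n) S)) (tms (tms (Set.univ : Set (Fin m → k)) X) (affS n S)) (rx (rdx m n))
      (rx (xdr m n)) where
  pol := isPolMap_rx _
  pol' := isPolMap_rx _
  mem := fun w hw => ⟨⟨Set.mem_univ _, hw.1⟩, ⟨Set.mem_univ _, hw.2.2⟩⟩
  mem' := fun w hw => ⟨hw.1.2, ⟨Set.mem_univ _, hw.2.2⟩⟩
  left := fun w _ => by
    funext q
    rcases q with q | q | q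
    · rfl
    · obtain ⟨p, rfl⟩ := finSumFinEquiv.surjective q
      rcases p with p | p <;> simp [rx, rdx, xdr]
    · rfl
  right := fun w _ => by
    funext q
    rcases q with (q | q) | q | q <;> simp [rx, rdx, xdr]

variable {C : CycleMap k K}

lemma onto_rdx (hC : C.IsBorelMoore) (m n : ℕ) [Finite Λ] [Finite τ] (hS : IsZeroSet S)
    (h : Onto C (tms (cpow A f0 f P Λ) (affS (m + n) S))) :
    Onto ((C.times (affS n S)).times (cpow A f0 f P Λ)) (Set.univ : Set (Fin m → k)) := by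
  have h1 : IsZeroSet (affS n S) := isZeroSet_tms isZeroSet_univ hS
  exact (rdx_inv m n (cpow A f0 f P Λ) S).onto hC (hXR _ _ _ _ _ (isZeroSet_tms isZeroSet_univ hS))
    (isZeroSet_tms (isZeroSet_tms isZeroSet_univ (isZeroSet_cpow _ _ _ _ _)) h1) h

/-- The direct image of a class under the splitting. -/
noncomputable def psp (T : Homology k K) (A f0 : Polynomial k) (f : Fin N → Polynomial k) (P : Fin N → k)
    (ε : Λ1 ⊕ Λ2 ≃ Λ) : T.H (cpow A f0 f P Λ) →ₗ[K] (T.times (cpow A f0 f P Λ2)).H (cpow A f0 f P Λ1) :=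
  T.push _ (tms (cpow A f0 f P Λ1) (cpow A f0 f P Λ2)) (rx (spl ε))

section split

variable [Finite Λ] [Finite Λ1] [Finite Λ2] (ε : Λ1 ⊕ Λ2 ≃ Λ)

lemma psp_frl {T : Homology k K} (hT : T.IsBorelMoore) (hO : IsOver Q A f0 f P) (l : Λ1)
    (y : T.H (cpow A f0 f P Λ)) :
    (T.times (cpow A f0 f P Λ2)).push _ (cpow A f0 f P Λ1) (frl Q l) (psp T A f0 f P ε y) =
      psp T A f0 f P ε (T.push _ (cpow A f0 f P Λ) (frl Q (ε (Sum.inl l))) y) :=
  push_comm hT (isZeroSet_cpow _ _ _ _ _) (hXR _ _ _ _ _ (isZeroSet_cpow _ _ _ _ _))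
    (hXR _ _ _ _ _ (isZeroSet_cpow _ _ _ _ _)) (isZeroSet_cpow _ _ _ _ _) (spl_inv ε).fin
    (isFiniteMap_ftm _ (fin_frl hO l)) (fin_frl hO _) (spl_inv ε).fin (fun w _ => (spl_frl Q ε l w).symm) y

lemma psp_trl {T : Homology k K} (hT : T.IsBorelMoore) (hA : IsAdditive A) (l : Λ1) {ζ : k} (hζ : A.eval ζ = 0)
    (y : T.H (cpow A f0 f P Λ)) :
    (T.times (cpow A f0 f P Λ2)).push _ (cpow A f0 f P Λ1) (trl l ζ) (psp T A f0 f P ε y) =
      psp T A f0 f P ε (T.push _ (cpow A f0 f P Λ) (trl (ε (Sum.inl l)) ζ) y) :=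
  push_comm hT (isZeroSet_cpow _ _ _ _ _) (hXR _ _ _ _ _ (isZeroSet_cpow _ _ _ _ _))
    (hXR _ _ _ _ _ (isZeroSet_cpow _ _ _ _ _)) (isZeroSet_cpow _ _ _ _ _) (spl_inv ε).fin
    (isFiniteMap_ftm _ (fin_trl hA l hζ)) (fin_trl hA _ hζ) (spl_inv ε).fin
    (fun w _ => (spl_trl ε l ζ w).symm) y

lemma psp_onto (hC : C.IsBorelMoore) (y : C.T.H (cpow A f0 f P Λ))
    (h : ∃ g, (C.times (cpow A f0 f P Λ2)).cl (cpow A f0 f P Λ1) g = psp C.T A f0 f P ε y) :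
    ∃ x, C.cl _ x = y := by
  obtain ⟨g, hg⟩ := h
  have hi : IsInv (cpow A f0 f P Λ) (tms (cpow A f0 f P Λ1) (cpow A f0 f P Λ2)) (rx (spl ε)) (rx (slp ε)) :=
    spl_inv ε
  have h1 : IsZeroSet (cpow A f0 f P Λ) := isZeroSet_cpow _ _ _ _ _
  have h2 : IsZeroSet (tms (cpow A f0 f P Λ1) (cpow A f0 f P Λ2)) := hXR _ _ _ _ _ (isZeroSet_cpow _ _ _ _ _)
  let g' : C.G.H (tms (cpow A f0 f P Λ1) (cpow A f0 f P Λ2)) := g
  have h3 := hC.img _ _ _ h2 h1 hi.symm.fin g'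
  have h4 : C.cl (tms (cpow A f0 f P Λ1) (cpow A f0 f P Λ2)) g' = C.T.push _ _ (rx (spl ε)) y := hg
  refine ⟨C.G.push _ _ (rx (slp ε)) g', ?_⟩
  rw [h3, h4]
  exact hi.push_push hC.target h1 h2 y

end split

end Pool.Agent.U436.CW
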