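import Pool.Agent.U436.CW.Fin

/-!
# The powers of the curve and the partial Frobenius maps
-/

set_option autoImplicit false

namespace Pool.Agent.U436.CW

open Finset Pool.Agent.U436 Pool.Agent.U436.AS Pool.Agent.U436.CT Pool.Agent.U436.CS

variable {k : Type} [Field k] {N : ℕ} {Λ Λ1 Λ2 : Type}

/-- The coordinates `x l`, `y l`, `s l i`. -/
abbrev CI (Λ : Type) (N : ℕ) : Type := (Λ ⊕ Λ) ⊕ (Λ × Fin N)

/-- The power `C ^ Λ` of the curve `C : A (y) = f0 (x) + ∑ f i (s i)`, `s i * (x - P i) = 1`. -/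
def cpow (A f0 : Polynomial k) (f : Fin N → Polynomial k) (P : Fin N → k) (Λ : Type) : Set (CI Λ N → k) :=
  {w | ∀ l : Λ, A.eval (w (Sum.inl (Sum.inr l))) = f0.eval (w (Sum.inl (Sum.inl l))) +
      ∑ i, (f i).eval (w (Sum.inr (l, i))) ∧ ∀ i, w (Sum.inr (l, i)) * (w (Sum.inl (Sum.inl l)) - P i) = 1}

variable {A f0 : Polynomial k} {f : Fin N → Polynomial k} {P : Fin N → k}

lemma isZeroSet_cpow (A f0 : Polynomial k) (f : Fin N → Polynomial k) (P : Fin N → k) (Λ : Type) :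
    IsZeroSet (cpow A f0 f P Λ) := by
  have h1 : IsZeroSet {w : CI Λ N → k | ∀ l : Λ, A.eval (w (Sum.inl (Sum.inr l))) -
      (f0.eval (w (Sum.inl (Sum.inl l))) + ∑ i, (f i).eval (w (Sum.inr (l, i)))) = 0} :=
    isZeroSet_forall fun l => (isPol_eval A (IsPol.coord _)).sub ((isPol_eval f0 (IsPol.coord _)).add
      (IsPol.sum _ fun i _ => isPol_eval (f i) (IsPol.coord _)))
  have h2 : IsZeroSet {w : CI Λ N → k | ∀ p : Λ × Fin N,
      w (Sum.inr (p.1, p.2)) * (w (Sum.inl (Sum.inl p.1)) - P p.2) - 1 = 0} :=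
    isZeroSet_forall fun p => ((IsPol.coord _).mul ((IsPol.coord _).sub (IsPol.const _))).sub (IsPol.const _)
  have h3 := h1.inter h2
  have h4 : ({w : CI Λ N → k | ∀ l : Λ, A.eval (w (Sum.inl (Sum.inr l))) -
      (f0.eval (w (Sum.inl (Sum.inl l))) + ∑ i, (f i).eval (w (Sum.inr (l, i)))) = 0} ∩
      {w : CI Λ N → k | ∀ p : Λ × Fin N,
      w (Sum.inr (p.1, p.2)) * (w (Sum.inl (Sum.inl p.1)) - P p.2) - 1 = 0}) = cpow A f0 f P Λ := by
    ext w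
    constructor
    · rintro ⟨h5, h6⟩ l
      exact ⟨sub_eq_zero.mp (h5 l), fun i => sub_eq_zero.mp (h6 (l, i))⟩
    · intro h
      exact ⟨fun l => sub_eq_zero.mpr (h l).1, fun p => sub_eq_zero.mpr ((h p.1).2 p.2)⟩
  rw [h4] at h3
  exact h3

/-- The position of a coordinate. -/
def pos : CI Λ N → Λ
  | Sum.inl (Sum.inl l) => l
  | Sum.inl (Sum.inr l) => l
  | Sum.inr (l, _) => l

/-- The partial Frobenius map: the coordinates at the position `l` are raised to the power `Q`. -/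
noncomputable def frl (Q : ℕ) (l : Λ) : (CI Λ N → k) → CI Λ N → k := frp Q fun q => pos q = l

/-- The translation `y l ↦ y l + ζ`. -/
noncomputable def trl (l : Λ) (ζ : k) (w : CI Λ N → k) : CI Λ N → k := by
  classical exact fun q => if q = Sum.inl (Sum.inr l) then w q + ζ else w q

lemma frl_of (Q : ℕ) (l : Λ) (w : CI Λ N → k) {q : CI Λ N} (h : pos q = l) : frl Q l w q = w q ^ Q :=
  if_pos h

lemma frl_ne (Q : ℕ) (l : Λ) (w : CI Λ N → k) {q : CI Λ N} (h : pos q ≠ l) : frl Q l w q = w q :=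
  if_neg h

lemma trl_of (l : Λ) (ζ : k) (w : CI Λ N → k) :
    trl l ζ w (Sum.inl (Sum.inr l)) = w (Sum.inl (Sum.inr l)) + ζ := if_pos rfl

lemma trl_ne (l : Λ) (ζ : k) (w : CI Λ N → k) {q : CI Λ N} (h : q ≠ Sum.inl (Sum.inr l)) :
    trl l ζ w q = w q := if_neg h

/-- The curve is defined over the field with `Q` elements, and so are its automorphisms `y ↦ y + ζ`. -/
structure IsOver (Q : ℕ) (A f0 : Polynomial k) (f : Fin N → Polynomial k) (P : Fin N → k) : Prop where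
  ne : Q ≠ 0
  add : ∀ x y : k, (x + y) ^ Q = x ^ Q + y ^ Q
  fixA : ∀ n, A.coeff n ^ Q = A.coeff n
  fix0 : ∀ n, f0.coeff n ^ Q = f0.coeff n
  fix : ∀ i n, (f i).coeff n ^ Q = (f i).coeff n
  fixP : ∀ i, P i ^ Q = P i
  zer : ∀ ζ, A.eval ζ = 0 → ζ ^ Q = ζ

lemma sum_pow {Q : ℕ} (hQ : Q ≠ 0) (h : ∀ x y : k, (x + y) ^ Q = x ^ Q + y ^ Q) {β : Type} (s : Finset β)
    (g : β → k) : (∑ i ∈ s, g i) ^ Q = ∑ i ∈ s, g i ^ Q := by
  classical
  induction s using Finset.induction_on with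
  | empty => simp [zero_pow hQ]
  | insert a s ha ih => rw [Finset.sum_insert ha, Finset.sum_insert ha, h, ih]

lemma eval_pow' {Q : ℕ} (hQ : Q ≠ 0) (h : ∀ x y : k, (x + y) ^ Q = x ^ Q + y ^ Q) {g : Polynomial k}
    (hg : ∀ n, g.coeff n ^ Q = g.coeff n) (x : k) : g.eval (x ^ Q) = g.eval x ^ Q := by
  rw [Polynomial.eval_eq_sum_range, Polynomial.eval_eq_sum_range, sum_pow hQ h]
  refine Finset.sum_congr rfl fun i _ => ?_
  rw [mul_pow, hg, ← pow_mul, ← pow_mul, Nat.mul_comm]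

lemma sub_pow' {Q : ℕ} (h : ∀ x y : k, (x + y) ^ Q = x ^ Q + y ^ Q) (x y : k) :
    (x - y) ^ Q = x ^ Q - y ^ Q := by
  have h1 := h (x - y) y
  rw [sub_add_cancel] at h1
  rw [h1, add_sub_cancel_right]

lemma frl_mem {Q : ℕ} (hO : IsOver Q A f0 f P) (l : Λ) {w : CI Λ N → k} (hw : w ∈ cpow A f0 f P Λ) :
    frl Q l w ∈ cpow A f0 f P Λ := by
  intro l'
  by_cases h : l' = l
  · subst h
    obtain ⟨h1, h2⟩ := hw l'
    have hx : frl Q l' w (Sum.inl (Sum.inl l')) = w (Sum.inl (Sum.inl l')) ^ Q := frl_of Q l' w rfl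
    have hy : frl Q l' w (Sum.inl (Sum.inr l')) = w (Sum.inl (Sum.inr l')) ^ Q := frl_of Q l' w rfl
    have hs : ∀ i, frl Q l' w (Sum.inr (l', i)) = w (Sum.inr (l', i)) ^ Q := fun i => frl_of Q l' w rfl
    refine ⟨?_, fun i => ?_⟩
    · rw [hx, hy, eval_pow' hO.ne hO.add hO.fixA, h1, hO.add, sum_pow hO.ne hO.add,
        eval_pow' hO.ne hO.add hO.fix0]
      congr 1
      refine Finset.sum_congr rfl fun i _ => ?_
      rw [hs, eval_pow' hO.ne hO.add (hO.fix i)]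
    · rw [hx, hs]
      have h3 : (w (Sum.inl (Sum.inl l')) ^ Q - P i) = (w (Sum.inl (Sum.inl l')) - P i) ^ Q := by
        rw [sub_pow' hO.add, hO.fixP]
      rw [h3, ← mul_pow, h2 i, one_pow]
  · have hx : frl Q l w (Sum.inl (Sum.inl l')) = w (Sum.inl (Sum.inl l')) := frl_ne Q l w h
    have hy : frl Q l w (Sum.inl (Sum.inr l')) = w (Sum.inl (Sum.inr l')) := frl_ne Q l w h
    have hs : ∀ i, frl Q l w (Sum.inr (l', i)) = w (Sum.inr (l', i)) := fun i => frl_ne Q l w h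
    rw [hx, hy]
    simp only [hs]
    exact hw l'

lemma fin_frl {Q : ℕ} (hO : IsOver Q A f0 f P) (l : Λ) :
    IsFiniteMap (cpow A f0 f P Λ) (cpow A f0 f P Λ) (frl Q l) :=
  fin_frp hO.ne _ fun _ hx => frl_mem hO l hx

lemma trl_mem (hA : IsAdditive A) (l : Λ) {ζ : k} (hζ : A.eval ζ = 0) {w : CI Λ N → k}
    (hw : w ∈ cpow A f0 f P Λ) : trl l ζ w ∈ cpow A f0 f P Λ := by
  intro l'
  have hx : trl l ζ w (Sum.inl (Sum.inl l')) = w (Sum.inl (Sum.inl l')) := trl_ne l ζ w (by simp)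
  have hs : ∀ i, trl l ζ w (Sum.inr (l', i)) = w (Sum.inr (l', i)) := fun i => trl_ne l ζ w (by simp)
  rw [hx]
  simp only [hs]
  refine ⟨?_, (hw l').2⟩
  by_cases h : l' = l
  · subst h
    rw [trl_of, hA, hζ, add_zero]
    exact (hw l').1
  · rw [trl_ne l ζ w (by simpa using h)]
    exact (hw l').1

lemma isPolMap_trl (l : Λ) (ζ : k) : IsPolMap (trl l ζ : (CI Λ N → k) → CI Λ N → k) := by
  classical
  intro q
  by_cases h : q = Sum.inl (Sum.inr l)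
  · have h1 : (fun w : CI Λ N → k => trl l ζ w q) = fun w => w q + ζ := by funext w; exact if_pos h
    rw [h1]
    exact (IsPol.coord q).add (IsPol.const ζ)
  · have h1 : (fun w : CI Λ N → k => trl l ζ w q) = fun w => w q := by funext w; exact if_neg h
    rw [h1]
    exact IsPol.coord q

lemma trl_trl (l : Λ) (ζ ξ : k) (w : CI Λ N → k) : trl l ζ (trl l ξ w) = trl l (ξ + ζ) w := by
  funext q
  by_cases h : q = Sum.inl (Sum.inr l)
  · subst h
    rw [trl_of, trl_of, trl_of, add_assoc]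
  · rw [trl_ne _ _ _ h, trl_ne _ _ _ h, trl_ne _ _ _ h]

lemma trl_zero (l : Λ) (w : CI Λ N → k) : trl l 0 w = w := by
  funext q
  by_cases h : q = Sum.inl (Sum.inr l)
  · subst h
    rw [trl_of, add_zero]
  · rw [trl_ne _ _ _ h]

lemma isAut_trl (hA : IsAdditive A) (l : Λ) {ζ : k} (hζ : A.eval ζ = 0) :
    IsAut (cpow A f0 f P Λ) (trl l ζ) := by
  have hζ' : A.eval (-ζ) = 0 := by rw [hA.map_neg, hζ, neg_zero]
  refine ⟨isPolMap_trl l ζ, fun x hx => trl_mem hA l hζ hx, trl l (-ζ), isPolMap_trl l _,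
    fun x hx => trl_mem hA l hζ' hx, fun x _ => ?_, fun x _ => ?_⟩
  · rw [trl_trl, add_neg_cancel, trl_zero]
  · rw [trl_trl, neg_add_cancel, trl_zero]

lemma fin_trl (hA : IsAdditive A) (l : Λ) {ζ : k} (hζ : A.eval ζ = 0) :
    IsFiniteMap (cpow A f0 f P Λ) (cpow A f0 f P Λ) (trl l ζ) := IsAut.fin (isAut_trl hA l hζ)

/-! ### The maps commute -/

lemma frl_frl (Q : ℕ) (l l' : Λ) (w : CI Λ N → k) : frl Q l (frl Q l' w) = frl Q l' (frl Q l w) := by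
  funext q
  by_cases h : pos q = l
  · by_cases h' : pos q = l'
    · rw [frl_of _ _ _ h, frl_of _ _ _ h', frl_of _ _ _ h', frl_of _ _ _ h]
    · rw [frl_of _ _ _ h, frl_ne _ _ _ h', frl_ne _ _ _ h', frl_of _ _ _ h]
  · by_cases h' : pos q = l'
    · rw [frl_ne _ _ _ h, frl_of _ _ _ h', frl_of _ _ _ h', frl_ne _ _ _ h]
    · rw [frl_ne _ _ _ h, frl_ne _ _ _ h', frl_ne _ _ _ h', frl_ne _ _ _ h]

lemma trl_comm (l l' : Λ) (ζ ξ : k) (w : CI Λ N → k) : trl l ζ (trl l' ξ w) = trl l' ξ (trl l ζ w) := by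
  funext q
  by_cases h : q = Sum.inl (Sum.inr l)
  · by_cases h' : q = Sum.inl (Sum.inr l')
    · have h1 : l = l' := by
        have := h.symm.trans h'
        simpa using this
      subst h1
      rw [trl_trl, trl_trl, add_comm]
    · subst h
      rw [trl_of, trl_ne _ _ _ h', trl_ne _ _ _ h', trl_of]
  · by_cases h' : q = Sum.inl (Sum.inr l')
    · subst h'
      rw [trl_ne _ _ _ h, trl_of, trl_of, trl_ne _ _ _ h]
    · rw [trl_ne _ _ _ h, trl_ne _ _ _ h', trl_ne _ _ _ h', trl_ne _ _ _ h]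

lemma frl_trl {Q : ℕ} (hO : IsOver Q A f0 f P) (l l' : Λ) {ζ : k} (hζ : A.eval ζ = 0) (w : CI Λ N → k) :
    frl Q l (trl l' ζ w) = trl l' ζ (frl Q l w) := by
  funext q
  by_cases h : pos q = l
  · by_cases h' : q = Sum.inl (Sum.inr l')
    · subst h'
      rw [frl_of _ _ _ h, trl_of, trl_of, frl_of _ _ _ h, hO.add, hO.zer ζ hζ]
    · rw [frl_of _ _ _ h, trl_ne _ _ _ h', trl_ne _ _ _ h', frl_of _ _ _ h]
  · by_cases h' : q = Sum.inl (Sum.inr l')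
    · subst h'
      rw [frl_ne _ _ _ h, trl_of, trl_of, frl_ne _ _ _ h]
    · rw [frl_ne _ _ _ h, trl_ne _ _ _ h', trl_ne _ _ _ h', frl_ne _ _ _ h]

/-! ### Splitting of the factors -/

/-- The coordinates of `C ^ Λ` as coordinates of `C ^ Λ1 × C ^ Λ2`. -/
def spl (ε : Λ1 ⊕ Λ2 ≃ Λ) : CI Λ1 N ⊕ CI Λ2 N → CI Λ N
  | Sum.inl (Sum.inl (Sum.inl l)) => Sum.inl (Sum.inl (ε (Sum.inl l)))
  | Sum.inl (Sum.inl (Sum.inr l)) => Sum.inl (Sum.inr (ε (Sum.inl l)))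
  | Sum.inl (Sum.inr (l, i)) => Sum.inr (ε (Sum.inl l), i)
  | Sum.inr (Sum.inl (Sum.inl l)) => Sum.inl (Sum.inl (ε (Sum.inr l)))
  | Sum.inr (Sum.inl (Sum.inr l)) => Sum.inl (Sum.inr (ε (Sum.inr l)))
  | Sum.inr (Sum.inr (l, i)) => Sum.inr (ε (Sum.inr l), i)

/-- The inverse. -/
def slp (ε : Λ1 ⊕ Λ2 ≃ Λ) : CI Λ N → CI Λ1 N ⊕ CI Λ2 N
  | Sum.inl (Sum.inl l) => (ε.symm l).elim (fun a => Sum.inl (Sum.inl (Sum.inl a))) fun b => Sum.inr (Sum.inl (Sum.inl b))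
  | Sum.inl (Sum.inr l) => (ε.symm l).elim (fun a => Sum.inl (Sum.inl (Sum.inr a))) fun b => Sum.inr (Sum.inl (Sum.inr b))
  | Sum.inr (l, i) => (ε.symm l).elim (fun a => Sum.inl (Sum.inr (a, i))) fun b => Sum.inr (Sum.inr (b, i))

lemma slp_spl (ε : Λ1 ⊕ Λ2 ≃ Λ) (q : CI Λ1 N ⊕ CI Λ2 N) : slp ε (spl ε q) = q := by
  rcases q with ((l | l) | ⟨l, i⟩) | ((l | l) | ⟨l, i⟩) <;> simp [spl, slp]

lemma spl_slp (ε : Λ1 ⊕ Λ2 ≃ Λ) (q : CI Λ N) : spl ε (slp ε q) = q := by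
  rcases q with (l | l) | ⟨l, i⟩ <;> obtain ⟨m, rfl⟩ := ε.surjective l <;> rcases m with m | m <;> simp [spl, slp]

lemma spl_inv (ε : Λ1 ⊕ Λ2 ≃ Λ) :
    IsInv (cpow A f0 f P Λ) (tms (cpow A f0 f P Λ1) (cpow A f0 f P Λ2)) (rx (spl ε)) (rx (slp ε)) where
  pol := isPolMap_rx _
  pol' := isPolMap_rx _
  mem := fun w hw => ⟨fun l => hw (ε (Sum.inl l)), fun l => hw (ε (Sum.inr l))⟩
  mem' := by
    rintro w ⟨h1, h2⟩ l
    obtain ⟨m, rfl⟩ := ε.surjective l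
    rcases m with m | m
    · have := h1 m
      simpa [rx, slp] using this
    · have := h2 m
      simpa [rx, slp] using this
  left := fun w _ => by
    funext q
    show w (spl ε (slp ε q)) = w q
    rw [spl_slp]
  right := fun w _ => by
    funext q
    show w (slp ε (spl ε q)) = w q
    rw [slp_spl]

lemma spl_frl (Q : ℕ) (ε : Λ1 ⊕ Λ2 ≃ Λ) (l : Λ1) (w : CI Λ N → k) :
    rx (spl ε) (frl Q (ε (Sum.inl l)) w) = ftm (frl Q l) (rx (spl ε) w : CI Λ1 N ⊕ CI Λ2 N → k) := by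
  classical
  funext q
  rcases q with ((m | m) | ⟨m, i⟩) | ((m | m) | ⟨m, i⟩) <;>
    simp [rx, spl, frl, frp, ftm, pos]

lemma spl_trl (ε : Λ1 ⊕ Λ2 ≃ Λ) (l : Λ1) (ζ : k) (w : CI Λ N → k) :
    rx (spl ε) (trl (ε (Sum.inl l)) ζ w) = ftm (trl l ζ) (rx (spl ε) w : CI Λ1 N ⊕ CI Λ2 N → k) := by
  classical
  funext q
  rcases q with ((m | m) | ⟨m, i⟩) | ((m | m) | ⟨m, i⟩) <;>
    simp [rx, spl, trl, ftm]

end Pool.Agent.U436.CW
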