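import Pool.Agent.U436.CW.Pow

/-!
# The invariant classes on one factor
-/

set_option autoImplicit false

namespace Pool.Agent.U436.CW

open Finset Pool.Agent.U436 Pool.Agent.U436.AS Pool.Agent.U436.CT Pool.Agent.U436.CS

variable {k K : Type} [Field k] [Field K] {N : ℕ} {A f0 : Polynomial k} {f : Fin N → Polynomial k} {P : Fin N → k}

lemma IsAdditive.deg {A : Polynomial k} (hA : IsAdditive A) (hA0 : A ≠ 0) : A.natDegree ≠ 0 := by
  intro h0
  obtain ⟨a, rfl⟩ := Polynomial.natDegree_eq_zero.mp h0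
  have := hA.map_zero
  rw [Polynomial.eval_C] at this
  exact hA0 (by rw [this, Polynomial.C_0])

lemma quot_onto {C : CycleMap k K} (hC : C.IsBorelMoore) {ι κ : Type} [Finite ι] [Finite κ] {X : Set (ι → k)}
    {Y : Set (κ → k)} {π : (ι → k) → κ → k} {Γ : Type} {ρ : Γ → (ι → k) → ι → k} (h : IsQuotient X Y π Γ ρ)
    (hO : Onto C Y) (y : C.T.H X) (hy : ∀ γ, C.T.push X X (ρ γ) y = y) : ∃ x, C.cl X x = y := by
  obtain ⟨g, hg⟩ := hO (C.T.push X Y π y)
  obtain ⟨g', hg', hg''⟩ := hC.source.quotients.onto X Y π Γ ρ h g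
  refine ⟨g', ?_⟩
  have h1 : C.T.push X Y π (C.cl X g' - y) = 0 := by
    rw [map_sub, ← hC.img X Y π h.2.1 h.2.2.1 h.2.2.2.1]
    change C.G.push X Y π g' = g at hg''
    rw [hg'']
    change C.cl Y g = _ at hg
    rw [hg, sub_self]
  have h2 : ∀ γ, C.T.push X X (ρ γ) (C.cl X g' - y) = C.cl X g' - y := by
    intro γ
    have h3 := hC.aut X (ρ γ) h.2.1 (h.2.2.2.2.2.1 γ) g'
    rw [map_sub, hy γ]
    change _ = C.T.push X X (ρ γ) _ at h3
    rw [← h3]
    have h4 : C.G.act X (ρ γ) g' = g' := hg' γ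
    rw [h4]
  exact sub_eq_zero.mp (hC.target.quotients.inj X Y π Γ ρ h _ h2 h1)

lemma isPol_prod {ι β : Type} (s : Finset β) {F : β → (ι → k) → k} (hF : ∀ i, IsPol (F i)) :
    IsPol fun x => ∏ i ∈ s, F i x := by
  classical
  induction s using Finset.induction_on with
  | empty =>
    have h2 : (fun x => ∏ i ∈ (∅ : Finset β), F i x) = fun _ => (1 : k) := by funext x; exact Finset.prod_empty
    rw [h2]; exact IsPol.const 1
  | insert a t ha ih =>
    have h2 : (fun x => ∏ i ∈ insert a t, F i x) = fun x => F a x * ∏ i ∈ t, F i x := by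
      funext x; exact Finset.prod_insert ha
    rw [h2]; exact (hF a).mul ih

/-- The product of the `x - P i`. -/
def hol (P : Fin N → k) (v : Fin 1 → k) : k := ∏ i, (v 0 - P i)

/-- The map `(x, y, s) ↦ (x, ∏ s i)`. -/
def qmp (w : CI Unit N → k) : Fin 1 ⊕ Unit → k :=
  Sum.elim (fun _ => w (Sum.inl (Sum.inl ()))) fun _ => ∏ i, w (Sum.inr ((), i))

lemma isPol_hol (P : Fin N → k) : IsPol (hol P) := isPol_prod _ fun _ => (IsPol.coord 0).sub (IsPol.const _)

lemma s_eq {w : CI Unit N → k} (hw : w ∈ cpow A f0 f P Unit) (i : Fin N) :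
    w (Sum.inr ((), i)) = (∏ j, w (Sum.inr ((), j))) * ∏ j ∈ univ.erase i, (w (Sum.inl (Sum.inl ())) - P j) := by
  have h1 := Finset.mul_prod_erase univ (fun j => w (Sum.inr ((), j))) (mem_univ i)
  rw [← h1, mul_assoc, ← Finset.prod_mul_distrib, Finset.prod_eq_one fun j _ => (hw ()).2 j, mul_one]

lemma isQuotient_qmp [IsAlgClosed k] (hA : IsAdditive A) (hA0 : A ≠ 0) :
    IsQuotient (cpow A f0 f P Unit) (opn Set.univ (hol P)) qmp {ζ // ζ ∈ zer A} fun ζ => trl () ζ.1 := by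
  have hfin : IsFiniteMap (cpow A f0 f P Unit) (opn Set.univ (hol P)) qmp := by
    have hx : ∀ l : Unit, Itg (cpow A f0 f P Unit) qmp fun w => w (Sum.inl (Sum.inl l)) := fun l =>
      Itg.of_pol (G := fun v : Fin 1 ⊕ Unit → k => v (Sum.inl 0)) (IsPol.coord _) fun w _ => rfl
    have hs : ∀ (l : Unit) (i : Fin N), Itg (cpow A f0 f P Unit) qmp fun w => w (Sum.inr (l, i)) := fun l i =>
      Itg.of_pol (G := fun v : Fin 1 ⊕ Unit → k => v (Sum.inr ()) * ∏ j ∈ univ.erase i, (v (Sum.inl 0) - P j))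
        ((IsPol.coord _).mul (isPol_prod _ fun j => (IsPol.coord _).sub (IsPol.const _)))
        fun w hw => s_eq hw i
    refine ⟨?_, fun w hw => ⟨Set.mem_univ _, ?_⟩, ?_⟩
    · rintro (j | j)
      · exact IsPol.coord _
      · exact isPol_prod (k := k) univ fun i => IsPol.coord (Sum.inr ((), i))
    · show (∏ i, w (Sum.inr ((), i))) * ∏ i, (w (Sum.inl (Sum.inl ())) - P i) = 1
      rw [← Finset.prod_mul_distrib]
      exact Finset.prod_eq_one fun i _ => (hw ()).2 i
    · rintro ((l | l) | ⟨l, i⟩)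
      · exact hx l
      · refine Itg.of_eval (F := fun w : CI Unit N → k => w (Sum.inl (Sum.inr l))) (IsAdditive.deg hA hA0) ?_
        refine Itg.congr (((hx l).eval f0).add (Itg.sum univ fun i _ => (hs l i).eval (f i))) fun w hw => ?_
        exact ((hw l).1).symm
      · exact hs l i
  refine ⟨inferInstance, isZeroSet_cpow _ _ _ _ _, isZeroSet_univ.opn (isPol_hol P), hfin, ?_,
    fun ζ => isAut_trl hA () ((mem_zer hA0).mp ζ.2), ?_⟩
  · rintro v ⟨-, hv⟩
    change v (Sum.inr ()) * ∏ i, (v (Sum.inl 0) - P i) = 1 at hv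
    obtain ⟨y, hy⟩ := hA.surj hA0 (f0.eval (v (Sum.inl 0)) +
      ∑ i, (f i).eval (v (Sum.inr ()) * ∏ j ∈ univ.erase i, (v (Sum.inl 0) - P j)))
    have hs : ∀ i, (v (Sum.inr ()) * ∏ j ∈ univ.erase i, (v (Sum.inl 0) - P j)) * (v (Sum.inl 0) - P i) = 1 := by
      intro i
      rw [mul_assoc, Finset.prod_erase_mul _ _ (mem_univ i)]
      exact hv
    refine ⟨Sum.elim (Sum.elim (fun _ => v (Sum.inl 0)) fun _ => y)
      fun p => v (Sum.inr ()) * ∏ j ∈ univ.erase p.2, (v (Sum.inl 0) - P j), fun l => ⟨hy, fun i => hs i⟩, ?_⟩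
    funext q
    rcases q with q | q
    · show v (Sum.inl 0) = v (Sum.inl q)
      rw [Subsingleton.elim q 0]
    · show ∏ i, (v (Sum.inr ()) * ∏ j ∈ univ.erase i, (v (Sum.inl 0) - P j)) = v (Sum.inr q)
      have h1 : (∏ i, (v (Sum.inr ()) * ∏ j ∈ univ.erase i, (v (Sum.inl 0) - P j))) *
          ∏ i, (v (Sum.inl 0) - P i) = 1 := by
        rw [← Finset.prod_mul_distrib]
        exact Finset.prod_eq_one fun i _ => hs i
      have h2 : (∏ i, (v (Sum.inl 0) - P i)) ≠ 0 := fun h => by rw [h, mul_zero] at hv; exact zero_ne_one hv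
      exact mul_right_cancel₀ h2 (h1.trans hv.symm)
  · intro w hw w' hw'
    constructor
    · intro e
      have hx : w (Sum.inl (Sum.inl ())) = w' (Sum.inl (Sum.inl ())) := congrFun e (Sum.inl 0)
      have hs : ∀ i, w (Sum.inr ((), i)) = w' (Sum.inr ((), i)) := by
        intro i
        have h1 := (hw ()).2 i
        have h2 := (hw' ()).2 i
        rw [← hx] at h2
        have h3 : (w (Sum.inl (Sum.inl ())) - P i) ≠ 0 := fun h => by rw [h, mul_zero] at h1; exact zero_ne_one h1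
        exact mul_right_cancel₀ h3 (h1.trans h2.symm)
      have hy : A.eval (w' (Sum.inl (Sum.inr ())) - w (Sum.inl (Sum.inr ()))) = 0 := by
        rw [hA.map_sub, (hw ()).1, (hw' ()).1, hx]
        simp only [hs]
        rw [sub_self]
      refine ⟨⟨_, (mem_zer hA0).mpr hy⟩, ?_⟩
      funext q
      rcases q with (q | q) | ⟨q, i⟩
      · show _ = trl () _ w _
        rw [trl_ne _ _ _ (by simp)]
        exact hx.symm
      · show _ = trl () _ w (Sum.inl (Sum.inr ()))
        rw [trl_of]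
        show w' (Sum.inl (Sum.inr ())) = _
        exact (add_sub_cancel _ _).symm
      · show _ = trl () _ w _
        rw [trl_ne _ _ _ (by simp)]
        exact (hs i).symm
    · rintro ⟨ζ, rfl⟩
      funext q
      rcases q with q | q
      · show w (Sum.inl (Sum.inl ())) = trl () ζ.1 w (Sum.inl (Sum.inl ()))
        rw [trl_ne _ _ _ (by simp)]
      · show ∏ i, w (Sum.inr ((), i)) = ∏ i, trl () ζ.1 w (Sum.inr ((), i))
        refine Finset.prod_congr rfl fun i _ => ?_
        rw [trl_ne _ _ _ (by simp)]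

/-- The restriction to the open part `h ≠ 0` preserves the surjectivity of `cl`. -/
def OpenOnto (C : CycleMap k K) : Prop := ∀ {ι : Type} [Finite ι] (X : Set (ι → k)) (h : (ι → k) → k),
  IsZeroSet X → IsPol h → Onto C X → Onto C (opn X h)

/-- The coordinates of `(X × S)` with `h ≠ 0`. -/
def swp {ι τ : Type} : (ι ⊕ Unit) ⊕ τ → (ι ⊕ τ) ⊕ Unit
  | Sum.inl (Sum.inl i) => Sum.inl (Sum.inl i)
  | Sum.inl (Sum.inr u) => Sum.inr u
  | Sum.inr t => Sum.inl (Sum.inr t)

/-- The inverse. -/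
def pws {ι τ : Type} : (ι ⊕ τ) ⊕ Unit → (ι ⊕ Unit) ⊕ τ
  | Sum.inl (Sum.inl i) => Sum.inl (Sum.inl i)
  | Sum.inr u => Sum.inl (Sum.inr u)
  | Sum.inl (Sum.inr t) => Sum.inr t

lemma swp_inv {ι τ : Type} (X : Set (ι → k)) (S : Set (τ → k)) (h : (ι → k) → k) :
    IsInv (opn (tms X S) (htm h)) (tms (opn X h) S) (rx swp) (rx pws) where
  pol := isPolMap_rx _
  pol' := isPolMap_rx _
  mem := fun w hw => ⟨⟨hw.1.1, hw.2⟩, hw.1.2⟩
  mem' := fun w hw => ⟨⟨hw.1.1, hw.2⟩, hw.1.2⟩
  left := fun w _ => by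
    funext q
    rcases q with (q | q) | q <;> rfl
  right := fun w _ => by
    funext q
    rcases q with (q | q) | q <;> rfl

lemma OpenOnto.times {C : CycleMap k K} (hC : C.IsBorelMoore) (h : OpenOnto C) {τ : Type} [Finite τ]
    {S : Set (τ → k)} (hS : IsZeroSet S) : OpenOnto (C.times S) := by
  intro ι _ X g hX hg hO
  have h1 : Onto C (opn (tms X S) (htm g)) := h (tms X S) (htm g) (isZeroSet_tms hX hS) (isPol_htm hg) hO
  exact (swp_inv X S g).onto hC ((isZeroSet_tms hX hS).opn (isPol_htm hg)) (isZeroSet_tms (hX.opn hg) hS) h1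

/-- The invariant classes on one factor. -/
lemma inv_onto [IsAlgClosed k] {C : CycleMap k K} (hC : C.IsBorelMoore) (hop : OpenOnto C) (hA : IsAdditive A)
    (hA0 : A ≠ 0) (hO : Onto C (Set.univ : Set (Fin 1 → k))) (y : C.T.H (cpow A f0 f P Unit))
    (hy : ∀ ζ ∈ zer A, C.T.push _ (cpow A f0 f P Unit) (trl () ζ) y = y) : ∃ x, C.cl _ x = y :=
  quot_onto hC (isQuotient_qmp hA hA0) (hop _ _ isZeroSet_univ (isPol_hol P) hO) y fun γ => hy γ.1 γ.2

end Pool.Agent.U436.CW
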