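import Pool.Agent.U436.CW.DetStep
import Pool.Agent.U436.CW.Quot
import Pool.Agent.U436.CW.Lin

/-!
# All Tate classes on the powers: the definitions
-/

set_option autoImplicit false

namespace Pool.Agent.U436.CW

open Finset Pool.Agent.U436 Pool.Agent.U436.AS Pool.Agent.U436.CT Pool.Agent.U436.CS

variable {k K : Type} [Field k] [Field K] {N d : ℕ} {Λ τ Ψ : Type}

/-- The action of the Frobenius map of the factor `l` on the homology of `C ^ Λ × R`. -/
noncomputable def frob (T : Homology k K) (Q : ℕ) (A f0 : Polynomial k) (f : Fin N → Polynomial k) (P : Fin N → k)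
    (R : Set (τ → k)) (l : Λ) : T.H (tms (cpow A f0 f P Λ) R) →ₗ[K] T.H (tms (cpow A f0 f P Λ) R) :=
  T.push _ _ (ftm (frl Q l))

/-- The action of the translation `y l ↦ y l + ζ` of the factor `l` on the homology of `C ^ Λ × R`. -/
noncomputable def trans (T : Homology k K) (A f0 : Polynomial k) (f : Fin N → Polynomial k) (P : Fin N → k)
    (R : Set (τ → k)) (l : Λ) (ζ : k) : T.H (tms (cpow A f0 f P Λ) R) →ₗ[K] T.H (tms (cpow A f0 f P Λ) R) :=
  T.push _ _ (ftm (trl l ζ))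

/-- The norm of the factor `l` vanishes. -/
def IsNew (T : Homology k K) (A f0 : Polynomial k) (f : Fin N → Polynomial k) (P : Fin N → k)
    (R : Set (τ → k)) (l : Λ) (x : T.H (tms (cpow A f0 f P Λ) R)) : Prop :=
  ∑ ζ ∈ zer A, trans T A f0 f P R l ζ x = 0

/-- The Frobenius map of the curve acts on its first homology with the different eigenvalues `α (ψ, i)`, `i : Fin d`,
on the part where the translations act by the character `chr ψ`; expressed for the factors of the products. -/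
structure HasEigenvalues (T : Homology k K) (Q : ℕ) (A f0 : Polynomial k) (f : Fin N → Polynomial k)
    (P : Fin N → k) [Fintype Ψ] (chr : Ψ → k → K) (α : Ψ × Fin d → K) : Prop where
  inj : Function.Injective α
  isChr : ∀ ψ, IsChr A (chr ψ)
  root : ∀ {Λ τ : Type} [Finite Λ] [Finite τ] (R : Set (τ → k)) (l : Λ) (x : T.H (tms (cpow A f0 f P Λ) R)),
    IsZeroSet R → IsNew T A f0 f P R l x →
      Polynomial.aeval (frob T Q A f0 f P R l) (∏ a, (Polynomial.X - Polynomial.C (α a))) x = 0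
  trans : ∀ {Λ τ : Type} [Finite Λ] [Finite τ] (R : Set (τ → k)) (l : Λ) (x : T.H (tms (cpow A f0 f P Λ) R))
    (ψ : Ψ) (i : Fin d), IsZeroSet R → IsNew T A f0 f P R l x → frob T Q A f0 f P R l x = α (ψ, i) • x →
      ∀ ζ ∈ zer A, trans T A f0 f P R l ζ x = chr ψ ζ • x

/-- Tate classes: a class of `T` on `C ^ Λ × 𝔸 ^ n × S` which is an eigenvector of the Frobenius maps of the factors of
`C ^ Λ` is an eigenvector of a power of the Frobenius map, with a power of `Q` as eigenvalue; `E` is the set of the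
eigenvalues of `S`. -/
def HasTateClasses (T : Homology k K) (Q : ℕ) (A f0 : Polynomial k) (f : Fin N → Polynomial k)
    (P : Fin N → k) (α : Ψ × Fin d → K) (S : Set (τ → k)) (E : Set K) : Prop :=
  ∀ {Λ : Type} [Fintype Λ] (n : ℕ) (a : Λ → Ψ × Fin d) (x : T.H (tms (cpow A f0 f P Λ) (affS n S))), x ≠ 0 →
    (∀ l, frob T Q A f0 f P (affS n S) l x = α (a l) • x) →
      ∃ β ∈ E, ∃ m : ℕ, 0 < m ∧ ∃ e : ℤ, (β * ∏ l, α (a l)) ^ m = (Q : K) ^ e

/-- The eigenvalues have only the obvious multiplicative relations. -/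
def OnlyObvious [Fintype Ψ] (Q : ℕ) (α : Ψ × Fin d → K) (dual : Ψ × Fin d → Ψ × Fin d) (E : Set K) : Prop :=
  ∀ (n : Ψ × Fin d → ℕ) (β : K), β ∈ E → ∀ m : ℕ, 0 < m → ∀ e : ℤ, (β * ∏ a, α a ^ n a) ^ m = (Q : K) ^ e →
    ∀ ψ i i', (n (ψ, i) : ℤ) - n (dual (ψ, i)) = n (ψ, i') - n (dual (ψ, i'))

/-- The product with a class on `C × C` (a combination of graphs of powers of the Frobenius map) gives all classes with
dual eigenvalues at two factors. -/
def HasGraphs (C : CycleMap k K) (Q : ℕ) (A f0 : Polynomial k) (f : Fin N → Polynomial k)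
    (P : Fin N → k) (α : Ψ × Fin d → K) (dual : Ψ × Fin d → Ψ × Fin d) (S : Set (τ → k)) : Prop :=
  ∀ {Λ : Type} [Finite Λ] (l l' : Λ) (n : ℕ) (a : Ψ × Fin d), l ≠ l' →
    ∃ (δG : C.G.H (tms (cpow A f0 f P {m // m ≠ l ∧ m ≠ l'}) (affS (n + 1) S)) →ₗ[K]
        C.G.H (tms (cpow A f0 f P Λ) (affS n S)))
      (δT : C.T.H (tms (cpow A f0 f P {m // m ≠ l ∧ m ≠ l'}) (affS (n + 1) S)) →ₗ[K]
        C.T.H (tms (cpow A f0 f P Λ) (affS n S))), (∀ x, C.cyc _ (δG x) = δT (C.cyc _ x)) ∧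
      ∀ y, IsNew C.T A f0 f P (affS n S) l y → IsNew C.T A f0 f P (affS n S) l' y →
        frob C.T Q A f0 f P (affS n S) l y = α a • y → frob C.T Q A f0 f P (affS n S) l' y = α (dual a) • y →
          ∃ x, δT x = y

/-- Restriction to the open part `h ≠ 0`, surjective for `T`. -/
def HasRestriction (C : CycleMap k K) : Prop := ∀ {ι : Type} [Finite ι] (X : Set (ι → k)) (h : (ι → k) → k),
  IsZeroSet X → IsPol h → ∃ (ρG : C.G.H X →ₗ[K] C.G.H (opn X h)) (ρT : C.T.H X →ₗ[K] C.T.H (opn X h)),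
    Function.Surjective ρT ∧ ∀ x, C.cyc _ (ρG x) = ρT (C.cyc _ x)

lemma HasRestriction.openOnto {C : CycleMap k K} (h : HasRestriction C) : OpenOnto C := by
  intro ι _ X g hX hg hO y
  obtain ⟨ρG, ρT, h1, h2⟩ := h X g hX hg
  obtain ⟨y', rfl⟩ := h1 y
  obtain ⟨x, rfl⟩ := hO y'
  exact ⟨ρG x, h2 x⟩

end Pool.Agent.U436.CW
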