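import Pool.Agent.U436.CW.Final

/-!
# The Tate conjecture for the powers: equivalence
-/

set_option autoImplicit false

namespace Pool.Agent.U436.CW

open Finset Pool.Agent.U436 Pool.Agent.U436.AS Pool.Agent.U436.CT Pool.Agent.U436.CS

variable {k K : Type} [Field k] [Field K] {N d : ℕ} {τ Ψ : Type} {A f0 : Polynomial k}
  {f : Fin N → Polynomial k} {P : Fin N → k} {Q : ℕ} {R : Set (τ → k)} {S : Set (τ → k)} {C : CycleMap k K}

lemma onto_of_empty [Finite τ] (hC : C.IsBorelMoore) (hR : IsZeroSet R)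
    (h : Onto C (tms (cpow A f0 f P Empty) R)) : Onto C R := by
  have hi : IsInv (tms (cpow A f0 f P Empty) R) R (fun w => w ∘ Sum.inr)
      (fun w => Sum.elim (fun q => isEmptyElim (pos q)) w) := by
    refine ⟨fun j => IsPol.coord _, ?_, fun w hw => hw.2, fun w hw => ⟨fun l => isEmptyElim l, hw⟩, fun w _ => ?_,
      fun w _ => rfl⟩
    · rintro (q | q)
      · exact isEmptyElim (pos q)
      · exact IsPol.coord q
    · funext q
      rcases q with q | q
      · exact isEmptyElim (pos q)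
      · rfl
  exact hi.onto hC (hXR _ _ _ _ _ hR) hR h

theorem powers_iff [IsAlgClosed k] [CharZero K] [Fintype Ψ] [Nonempty Ψ] [Finite τ] (hC : C.IsBorelMoore)
    (hres : HasRestriction C) (hA : IsAdditive A) (hA0 : A ≠ 0) (hP : Function.Injective P)
    (hm0 : (f0.natDegree : k) ≠ 0) (hm : ∀ i, ((f i).natDegree : k) ≠ 0)
    (hd : d + 1 = f0.natDegree + ∑ i, ((f i).natDegree + 1)) (he : Even d) (hd0 : 0 < d)
    (hO : IsOver Q A f0 f P) {chr : Ψ → k → K} {α : Ψ × Fin d → K}
    (hα : HasEigenvalues C.T Q A f0 f P chr α) {dual : Ψ × Fin d → Ψ × Fin d} (hdual : ∀ a, dual a ≠ a)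
    (hS : IsZeroSet S) {E : Set K} (hE : HasTateClasses C.T Q A f0 f P α S E) (hgen : OnlyObvious Q α dual E)
    (hgr : HasGraphs C Q A f0 f P α dual S) :
    (∀ (Λ : Type) [Finite Λ] (n : ℕ), Onto C (tms (cpow A f0 f P Λ) (affS n S))) ↔ ∀ n, Onto C (affS n S) := by
  obtain ⟨e, he⟩ := he
  constructor
  · intro h n
    exact onto_of_empty hC (isZeroSet_tms isZeroSet_univ hS) (h Empty n)
  · intro h Λ _ n
    have := Fintype.ofFinite Λ
    exact powers_onto (e := e) hC hres hA hA0 hP hm0 hm hd (by omega) hd0 hO hα hdual hS hE hgen hgr h _ Λ rfl n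

end Pool.Agent.U436.CW
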